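import Pool.Agent.Lib.MP_1a91b9_ntX.LF.Defs
import Pool.Agent.Lib.MP_1a91b9_ntT.CT.Lf
import Pool.Agent.Lib.MP_1a91b9_ntT.CT.La

/-!
# The minimal models of `y² = x³ + d`

JOB NmA.

PROOF. (`minModel_crv`) copy of `CT.minModel_tw` (`MP_1a91b9_ntT/CT/Lf.lean`) with `crv_map` (LF/Defs).
(`uu_one`) at a place `v` with `|6 d| = 1` (`d` an integer) `crv d` is integral with unit discriminant `-432 d²` (`crv_Δ`), so by `CT.unit_min` (`hm` is `minModel_isMinimal W v`) the factor `u` of the
change `C` of `minModel_crv` is a unit.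
-/

set_option autoImplicit false

namespace Pool.Agent.Lib.MP_1a91b9_ntX.PL

open NumberField IsDedekindDomain WeierstrassCurve WithZero Pool.Agent.Lib.MP_1a91b9_ntX.LF
open Pool.Agent.Lib.MP_1a91b9_ntT.CT (uu)
open Pool.Agent.Lib.MP_1a91b9_ntT.S9 (tam minModel minChange normFactor)
open scoped Classical

variable {N : Type*} [Field N] [NumberField N]

theorem minModel_crv {W : WeierstrassCurve N} {D : VariableChange N} {d : N} (hD : D • W = crv d)
    (v : HeightOneSpectrum (𝓞 N)) : ∃ C : VariableChange (v.adicCompletion N),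
      (C.u : v.adicCompletion N) = uu W D v ∧
      minModel W v = C • crv (algebraMap N (v.adicCompletion N) d) := by
  have e : (crv d).baseChange (v.adicCompletion N) = crv (algebraMap N (v.adicCompletion N) d) :=
    crv_map _ _
  have eC : (D.map (algebraMap N (v.adicCompletion N))) • (W.baseChange (v.adicCompletion N)) =
      crv (algebraMap N (v.adicCompletion N) d) := by
    rw [← e, ← hD]
    exact (WeierstrassCurve.map_variableChange _ _ _)
  refine ⟨minChange W v * (D.map (algebraMap N (v.adicCompletion N)))⁻¹, ?_, ?_⟩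
  · simp [uu, VariableChange.mul_def, VariableChange.inv_def, div_eq_mul_inv]
  · rw [← eC, mul_smul, inv_smul_smul]
    rfl

theorem uu_one {W : WeierstrassCurve N} {D : VariableChange N} {d : ℤ}
    (hD : D • W = crv ((d : ℤ) : N)) (v : HeightOneSpectrum (𝓞 N))
    (h6 : v.valuation N ((6 * d : ℤ) : N) = 1) : Valued.v (uu W D v) = (1 : ℤᵐ⁰) := by
  obtain ⟨C, hCu, hC⟩ := minModel_crv hD v
  have hval : ∀ x : N, Valued.v (algebraMap N (v.adicCompletion N) x) = v.valuation N x := fun x =>
    HeightOneSpectrum.valuedAdicCompletion_eq_valuation' v x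
  have hm : IsMinimal (v.adicCompletionIntegers N)
      (C • crv (algebraMap N (v.adicCompletion N) ((d : ℤ) : N))) := by
    rw [← hC]
    exact Pool.Agent.Lib.MP_1a91b9_ntT.S9.minModel_isMinimal W v
  have hI : crv (algebraMap N (v.adicCompletion N) ((d : ℤ) : N)) =
      (crv ((d : ℤ) : v.adicCompletionIntegers N)).baseChange (v.adicCompletion N) := by
    rw [WeierstrassCurve.baseChange, crv_map, map_intCast, map_intCast]
  have hint : ∀ m : ℤ, v.valuation N ((m : ℤ) : N) ≤ 1 := by
    intro m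
    have h : v.valuation N (algebraMap (𝓞 N) N ((m : ℤ) : 𝓞 N)) ≤ 1 :=
      HeightOneSpectrum.valuation_le_one (K := N) v ((m : ℤ) : 𝓞 N)
    rwa [map_intCast] at h
  have h4 : v.valuation N ((432 * d ^ 2 : ℤ) : N) * v.valuation N ((3 * d ^ 2 : ℤ) : N) = 1 := by
    rw [← map_mul]
    have e : ((432 * d ^ 2 : ℤ) : N) * ((3 * d ^ 2 : ℤ) : N) = ((6 * d : ℤ) : N) ^ 4 := by
      push_cast
      ring
    rw [e, map_pow, h6, one_pow]
  have h5 : v.valuation N ((432 * d ^ 2 : ℤ) : N) = 1 := by
    refine le_antisymm (hint _) ?_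
    calc (1 : ℤᵐ⁰) = v.valuation N ((432 * d ^ 2 : ℤ) : N) * v.valuation N ((3 * d ^ 2 : ℤ) : N) :=
          h4.symm
      _ ≤ v.valuation N ((432 * d ^ 2 : ℤ) : N) * 1 := mul_le_mul_right (hint _) _
      _ = v.valuation N ((432 * d ^ 2 : ℤ) : N) := mul_one _
  have hΔ : Valued.v (crv (algebraMap N (v.adicCompletion N) ((d : ℤ) : N))).Δ = 1 := by
    rw [crv_Δ, Valuation.map_neg]
    have e : 432 * (algebraMap N (v.adicCompletion N) ((d : ℤ) : N)) ^ 2 =
        algebraMap N (v.adicCompletion N) ((432 * d ^ 2 : ℤ) : N) := by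
      rw [map_intCast, map_intCast]
      push_cast
      ring
    rw [e, hval, h5]
  rw [← hCu]
  exact (Pool.Agent.Lib.MP_1a91b9_ntT.CT.unit_min _ _ hI hΔ C hm).2

end Pool.Agent.Lib.MP_1a91b9_ntX.PL
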