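import Pool.Agent.Lib.MP_1a91b9_ntX.PL.NmA
import Pool.Agent.Lib.MP_1a91b9_ntT.CT.Lg2
import Pool.Agent.Lib.MP_1a91b9_ntT.PL.Val
import Pool.Agent.Lib.MP_1a91b9_ntT3.R3.Defs

/-!
# The finite part of the period of `y² = x³ + d`

JOB NmB.

PROOF. Copy of `absNorm_coprime` and `finprod_norm3` of `MP_1a91b9_ntT/PL/Nrm.lean`, simpler: with `a v = Valued.v (uu W D v)` (no factor `2`), `normFactor W v = qp v (a v) * qp v (v.valuation N D.u)`,
`a v = 1` if `v` does not divide `6 d` (`uu_one`); there are only finitely many `v` with `v.valuation N (6 d) ≠ 1` (e.g. `qp_finite`-style, or `HeightOneSpectrum.finite..`: the finiteness of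
`{v | v.valuation N x ≠ 1}` for `x ≠ 0` is in the proof of `CT.qp_finite`: use `qp_finite (6 d)` if `qp v a = 1 ↔ a = 1`, or `Ideal.finite_factors`/ `HeightOneSpectrum.Support.finite`).
`prod_qp`: `∏ᶠ qp v (v.valuation N x) = |norm x|`. For `v ∣ 6 d` the norm `N v` divides the norm of `6 d`, a power of `|6 d|`, so it is prime to `ℓ`, and `qp v (a v)` is a power of `N v`: `A.valuation = 1`
(`Ab.nat`).
-/

set_option autoImplicit false

namespace Pool.Agent.Lib.MP_1a91b9_ntX.PL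

open NumberField IsDedekindDomain WeierstrassCurve WithZero Pool.Agent.Lib.MP_1a91b9_ntX.LF
open Pool.Agent.Lib.MP_1a91b9_ntT.CT (uu qp)
open Pool.Agent.Lib.MP_1a91b9_ntT.S9 (tam minModel minChange normFactor)
open Pool.Agent.Lib.MP_1a91b9_ntT.PL (Ab)
open scoped Classical

variable {N : Type*} [Field N] [NumberField N]

private theorem NmB_qp_one {v : HeightOneSpectrum (𝓞 N)} {a : ℤᵐ⁰} (ha : a ≠ 0)
    (h : qp v a = 1) : a = 1 := by
  have h1 : (1 : ℝ) < (Ideal.absNorm v.asIdeal : ℝ) := by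
    exact_mod_cast NumberField.HeightOneSpectrum.one_lt_absNorm v
  rw [qp] at h
  have h2 := (zpow_eq_one_iff_right₀ (by linarith) h1.ne').1 h
  have h3 : log a = 0 := by omega
  have h4 := exp_log ha
  rw [h3, exp_zero] at h4
  exact h4.symm

private theorem NmB_le (v : HeightOneSpectrum (𝓞 N)) (n : ℤ) : v.valuation N (n : N) ≤ 1 := by
  have h : v.valuation N (algebraMap (𝓞 N) N (n : 𝓞 N)) ≤ 1 :=
    HeightOneSpectrum.valuation_le_one (K := N) v (n : 𝓞 N)
  rwa [map_intCast (algebraMap (𝓞 N) N) n] at h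

private theorem NmB_absNorm (v : HeightOneSpectrum (𝓞 N)) {n : ℤ}
    (h3 : v.valuation N (n : N) < 1) {ℓ : ℕ} (hl : n.natAbs.Coprime ℓ) :
    (Ideal.absNorm v.asIdeal).Coprime ℓ := by
  have h1 : (n : 𝓞 N) ∈ v.asIdeal := by
    have e : v.valuation N (algebraMap (𝓞 N) N (n : 𝓞 N)) < 1 := by
      rwa [map_intCast (algebraMap (𝓞 N) N) n]
    exact (v.valuation_lt_one_iff_mem (K := N) (n : 𝓞 N)).1 e
  have h2 : Ideal.absNorm v.asIdeal ∣ Ideal.absNorm (Ideal.span {(n : 𝓞 N)}) :=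
    Ideal.absNorm_dvd_absNorm_of_le ((Ideal.span_singleton_le_iff_mem _).2 h1)
  rw [Ideal.absNorm_span_singleton] at h2
  have h4 : (Algebra.norm ℤ (n : 𝓞 N)).natAbs = n.natAbs ^ Module.finrank ℤ (𝓞 N) := by
    have e : (n : 𝓞 N) = algebraMap ℤ (𝓞 N) n := (eq_intCast (algebraMap ℤ (𝓞 N)) n).symm
    rw [e, Algebra.norm_algebraMap, Int.natAbs_pow]
  rw [h4] at h2
  exact Nat.Coprime.coprime_dvd_left h2 (Nat.Coprime.pow_left _ hl)

theorem norm_crv {W : WeierstrassCurve N} {D : VariableChange N} {d : ℤ} (hd : d ≠ 0)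
    (hD : D • W = crv ((d : ℤ) : N)) {ℓ : ℕ} (hℓ : ℓ.Prime) (h6 : ¬ (ℓ : ℤ) ∣ 6 * d) :
    ∃ κ : ℚ, (∀ A : ValuationSubring ℂ, Ab ℓ A → A.valuation (κ : ℂ) = 1) ∧
      ∏ᶠ v : HeightOneSpectrum (𝓞 N), normFactor W v =
        (κ : ℝ) * |(Algebra.norm ℚ (D.u : N) : ℝ)| := by
  have hD0 : (D.u : N) ≠ 0 := D.u.ne_zero
  have h6d : ((6 * d : ℤ) : N) ≠ 0 := by
    have : (6 * d : ℤ) ≠ 0 := mul_ne_zero (by norm_num) hd
    exact_mod_cast this
  have hl : (6 * d : ℤ).natAbs.Coprime ℓ := by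
    rw [Nat.coprime_comm, Nat.Prime.coprime_iff_not_dvd hℓ]
    intro h
    exact h6 (Int.natCast_dvd.2 h)
  have hvD : ∀ v : HeightOneSpectrum (𝓞 N), v.valuation N (D.u : N) ≠ 0 := fun v =>
    (Valuation.ne_zero_iff _).2 hD0
  have hum : ∀ v : HeightOneSpectrum (𝓞 N), ((minChange W v).u : v.adicCompletion N) =
      uu W D v * algebraMap N (v.adicCompletion N) (D.u : N) := by
    intro v
    rw [uu, div_mul_cancel₀]
    exact (map_ne_zero _).2 hD0
  have hvu : ∀ v : HeightOneSpectrum (𝓞 N), Valued.v (uu W D v) ≠ (0 : ℤᵐ⁰) := by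
    intro v
    rw [Valuation.ne_zero_iff]
    intro h0
    have := hum v
    rw [h0, zero_mul] at this
    exact (minChange W v).u.ne_zero this
  have hfac : ∀ v : HeightOneSpectrum (𝓞 N), normFactor W v =
      qp v (Valued.v (uu W D v)) * qp v (v.valuation N (D.u : N)) := by
    intro v
    have e1 : normFactor W v = qp v (Valued.v ((minChange W v).u : v.adicCompletion N)) := rfl
    have e2 : Valued.v ((minChange W v).u : v.adicCompletion N) =
        Valued.v (uu W D v) * v.valuation N (D.u : N) := by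
      rw [hum, map_mul, MP_1a91b9_nt.valued_algebraMap]
    rw [e1, e2, Pool.Agent.Lib.MP_1a91b9_ntT.CT.qp_mul v (hvu v) (hvD v)]
  have hs1 : (Function.mulSupport fun v : HeightOneSpectrum (𝓞 N) =>
      qp v (Valued.v (uu W D v))).Finite := by
    refine (Pool.Agent.Lib.MP_1a91b9_ntT.CT.qp_finite (N := N) _ h6d).subset fun v hv => ?_
    rw [Function.mem_mulSupport] at hv ⊢
    intro h
    apply hv
    rw [uu_one hD v (NmB_qp_one ((Valuation.ne_zero_iff _).2 h6d) h),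
      Pool.Agent.Lib.MP_1a91b9_ntT.CT.qp_one]
  have hs3 := Pool.Agent.Lib.MP_1a91b9_ntT.CT.qp_finite (N := N) (D.u : N) hD0
  have hprod : ∏ᶠ v : HeightOneSpectrum (𝓞 N), normFactor W v =
      (∏ᶠ v : HeightOneSpectrum (𝓞 N), qp v (Valued.v (uu W D v))) *
        |(Algebra.norm ℚ (D.u : N) : ℝ)| := by
    rw [finprod_congr hfac, finprod_mul_distrib hs1 hs3,
      Pool.Agent.Lib.MP_1a91b9_ntT.CT.prod_qp _ hD0]
  have hκ : ∃ q : ℚ, (q : ℝ) = ∏ᶠ v : HeightOneSpectrum (𝓞 N), qp v (Valued.v (uu W D v)) ∧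
      ∀ A : ValuationSubring ℂ, Ab ℓ A → A.valuation (q : ℂ) = 1 := by
    refine finprod_induction (p := fun x : ℝ => ∃ q : ℚ, (q : ℝ) = x ∧
      ∀ A : ValuationSubring ℂ, Ab ℓ A → A.valuation (q : ℂ) = 1) ?_ ?_ ?_
    · exact ⟨1, by norm_num, fun A _ => by rw [Rat.cast_one, map_one]⟩
    · rintro x y ⟨q, hq, hq'⟩ ⟨r, hr, hr'⟩
      refine ⟨q * r, by rw [← hq, ← hr]; push_cast; rfl, fun A hA => ?_⟩
      rw [Rat.cast_mul, map_mul, hq' A hA, hr' A hA, one_mul]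
    · intro v
      rcases (NmB_le v (6 * d)).lt_or_eq with h | h
      · refine ⟨(Ideal.absNorm v.asIdeal : ℚ) ^ (-(log (Valued.v (uu W D v)))), ?_, fun A hA => ?_⟩
        · rw [qp]
          push_cast
          rfl
        · rw [Rat.cast_zpow, Rat.cast_natCast, map_zpow₀, hA.nat (NmB_absNorm v h hl),
            one_zpow]
      · refine ⟨1, ?_, fun A _ => by rw [Rat.cast_one, map_one]⟩
        rw [uu_one hD v h, Pool.Agent.Lib.MP_1a91b9_ntT.CT.qp_one, Rat.cast_one]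
  obtain ⟨q, hq, hqA⟩ := hκ
  refine ⟨q, hqA, ?_⟩
  rw [hprod, hq]

end Pool.Agent.Lib.MP_1a91b9_ntX.PL
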