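import Pool.Agent.Lib.MP_1a91b9_ntX.PL.NmB
import Pool.Agent.Lib.MP_1a91b9_ntX.RG.Per

/-!
# The period of `y² = x³ + d`

JOB NmC.

PROOF. `period W = (∏ᶠ normFactor W v) * ∏ perAt W v = κ |norm D.u| ∏ perAt W v = κ ∏ perAt (crv d) v` (`norm_crv`, `RG.prod_iso`). With `a > 0`, `a ^ 6 = |d| / 16`
(`Real.rpow`: `Per_exists` of RG/Per is private, copy it) the product is `√3 ^ m * (‖Om‖ / (2 a)) ^ n` with `m = Fintype.card (InfinitePlace N)` (`d > 0`, `prod_crv_pos`) or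
`m = nrComplexPlaces N` (`d < 0`, `prod_crv_neg`). Values for `A` above `ℓ`, `ℓ ∤ 6 d`: `A.valuation √3 = 1` (`Ab.sqrt_three`), `A.valuation ‖Om‖ = A.valuation Om` (`Per.val_norm_Om`),
`(2 a) ^ 6 = 4 |d|` has value `1` (`Ab.int`, `|d| = ± d`), so `A.valuation (2 a) = 1` (`pow_eq_one_iff_of_nonneg`). The product is positive, `κ ≠ 0`? `finprod normFactor ≠ 0` is
`MP_1a91b9_ntT3.S9.finprod_normFactor_ne`. Model: `period_tw`, `prod_tw_pos'` in `MP_1a91b9_ntT/PL/Nrm.lean`, `Ab.prod_tw` in `MP_1a91b9_ntT/PL/Val.lean`.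
-/

set_option autoImplicit false

namespace Pool.Agent.Lib.MP_1a91b9_ntX.PL

open NumberField IsDedekindDomain WeierstrassCurve WithZero Pool.Agent.Lib.MP_1a91b9_ntX.LF
open Pool.Agent.Lib.MP_1a91b9_ntT.CT (uu qp)
open Pool.Agent.Lib.MP_1a91b9_ntT.S9 (tam minModel minChange normFactor period)
open Pool.Agent.Lib.MP_1a91b9_ntT.PL (Ab)
open Pool.Agent.Lib.MP_1a91b9_ntT (Om)
open scoped Classical

variable {N : Type*} [Field N] [NumberField N]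

private theorem NmC_exists {d : ℤ} (hd : d ≠ 0) : ∃ a : ℝ, 0 < a ∧ a ^ 6 = |(d : ℝ)| / 16 := by
  have h0 : 0 < |(d : ℝ)| / 16 := by
    have : (0 : ℝ) < |(d : ℝ)| := abs_pos.2 (by exact_mod_cast hd)
    positivity
  refine ⟨(|(d : ℝ)| / 16) ^ (((6 : ℕ) : ℝ)⁻¹), Real.rpow_pos_of_pos h0 _, ?_⟩
  exact Real.rpow_inv_natCast_pow h0.le (by norm_num)

private theorem NmC_prod {d : ℤ} (hd : d ≠ 0) : ∃ (a : ℝ) (m : ℕ), 0 < a ∧
    (2 * a) ^ 6 = |((4 * d : ℤ) : ℝ)| ∧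
    ∏ v : InfinitePlace N, Pool.Agent.Lib.MP_1a91b9_ntT.Per.perAt (crv (d : N)) v =
      Real.sqrt 3 ^ m * (‖Om‖ / (2 * a)) ^ Module.finrank ℚ N := by
  obtain ⟨a, ha, ha6⟩ := NmC_exists hd
  have e : (2 * a) ^ 6 = |((4 * d : ℤ) : ℝ)| := by
    rw [mul_pow, ha6]
    push_cast
    rw [abs_mul, abs_of_pos (by norm_num : (0 : ℝ) < 4)]
    ring
  rcases lt_or_gt_of_ne hd with h | h
  · exact ⟨a, _, ha, e, Pool.Agent.Lib.MP_1a91b9_ntX.RG.prod_crv_neg h ha ha6⟩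
  · exact ⟨a, _, ha, e, Pool.Agent.Lib.MP_1a91b9_ntX.RG.prod_crv_pos h ha ha6⟩

theorem period_crv {W : WeierstrassCurve N} {D : VariableChange N} {d : ℤ} (hd : d ≠ 0)
    (hD : D • W = crv ((d : ℤ) : N)) {ℓ : ℕ} (hℓ : ℓ.Prime) (h6 : ¬ (ℓ : ℤ) ∣ 6 * d) :
    (period W ≠ 0) ∧ (∀ A : ValuationSubring ℂ, Ab ℓ A →
      A.valuation ((period W : ℝ) : ℂ) = A.valuation Om ^ Module.finrank ℚ N) := by
  obtain ⟨κ, hκ, hκ2⟩ := norm_crv hd hD hℓ h6
  obtain ⟨a, m, ha, ha6, hprod⟩ := NmC_prod (N := N) hd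
  have h1 := Pool.Agent.Lib.MP_1a91b9_ntX.RG.prod_iso W D hD
  have hper : period W = (κ : ℝ) *
      (Real.sqrt 3 ^ m * (‖Om‖ / (2 * a)) ^ Module.finrank ℚ N) := by
    rw [period, hκ2, ← hprod, h1]
    ring
  have hcop : IsCoprime (6 * d) (ℓ : ℤ) :=
    ((Nat.prime_iff_prime_int.1 hℓ).coprime_iff_not_dvd.2 h6).symm
  have h3 : Nat.Coprime 3 ℓ := by
    have h4 : IsCoprime (3 : ℤ) (ℓ : ℤ) := hcop.of_isCoprime_of_dvd_left ⟨2 * d, by ring⟩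
    exact Nat.isCoprime_iff_coprime.1 (by exact_mod_cast h4)
  have h4d : IsCoprime (4 * d) (ℓ : ℤ) := by
    have h2 : IsCoprime (2 : ℤ) (ℓ : ℤ) := hcop.of_isCoprime_of_dvd_left ⟨3 * d, by ring⟩
    have h5 : IsCoprime (d : ℤ) (ℓ : ℤ) := hcop.of_isCoprime_of_dvd_left ⟨6, by ring⟩
    have h6 : IsCoprime (2 * (2 * d)) (ℓ : ℤ) := h2.mul_left (h2.mul_left h5)
    have e : (4 * d : ℤ) = 2 * (2 * d) := by ring
    rw [e]
    exact h6
  have hv : ∀ A : ValuationSubring ℂ, Ab ℓ A →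
      A.valuation ((period W : ℝ) : ℂ) = A.valuation Om ^ Module.finrank ℚ N := by
    intro A hA
    have ha1 : A.valuation ((2 * a : ℝ) : ℂ) = 1 := by
      have e1 : (((2 * a : ℝ) : ℂ)) ^ 6 = ((|((4 * d : ℤ) : ℝ)| : ℝ) : ℂ) := by
        rw [← Complex.ofReal_pow, ha6]
      have e2 : A.valuation ((|((4 * d : ℤ) : ℝ)| : ℝ) : ℂ) = 1 := by
        rcases abs_choice ((4 * d : ℤ) : ℝ) with h | h
        · rw [h, Complex.ofReal_intCast]
          exact hA.int h4d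
        · rw [h, Complex.ofReal_neg, Valuation.map_neg, Complex.ofReal_intCast]
          exact hA.int h4d
      have e3 := congrArg A.valuation e1
      rw [map_pow, e2] at e3
      exact (pow_eq_one_iff_of_nonneg zero_le (by norm_num)).1 e3
    rw [hper, Complex.ofReal_mul, map_mul, Complex.ofReal_ratCast, hκ A hA, one_mul,
      Complex.ofReal_mul, map_mul, Complex.ofReal_pow, map_pow, hA.sqrt_three h3, one_pow, one_mul,
      Complex.ofReal_pow, map_pow, Complex.ofReal_div, map_div₀, ha1, div_one,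
      Pool.Agent.Lib.MP_1a91b9_ntT.Per.val_norm_Om]
  refine ⟨?_, hv⟩
  have hne := Pool.Agent.Lib.MP_1a91b9_ntT3.S9.finprod_normFactor_ne W
  have hOm := norm_pos_iff.2 Pool.Agent.Lib.MP_1a91b9_ntT.Om_ne_zero
  have hpos : 0 < Real.sqrt 3 ^ m * (‖Om‖ / (2 * a)) ^ Module.finrank ℚ N := by
    have h3 : (0 : ℝ) < Real.sqrt 3 := Real.sqrt_pos.2 (by norm_num)
    positivity
  have hκ0 : (κ : ℝ) ≠ 0 := by
    intro h0
    rw [h0, zero_mul] at hκ2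
    exact hne hκ2
  rw [hper]
  exact mul_ne_zero hκ0 hpos.ne'

end Pool.Agent.Lib.MP_1a91b9_ntX.PL
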