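import Pool.Agent.Lib.MP_1a91b9_ntX.LF.Defs

/-!
# Tamagawa numbers of `y² = x³ + d`: the points `2 P` and `3 P`

JOB TmA. `k` is a field in which `2` and `3` are not zero, `d ≠ 0`. A point is `Affine.Point.some x y h` with `y² = x³ + d`.

PROOF. (`nons_crv`) `Affine.nonsingular_iff'` (or `nonsingular_iff`): one of `3 x² ≠ 0`, `2 y ≠ 0` holds, otherwise `x = y = 0` and `d = 0`.
(`two_zero`) `two_nsmul`, `Affine.Point.add_self_of_Y_eq` (or `add_of_Y_eq`), `negY x y = -y`.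
(`two_crv`) `two_nsmul`, `Affine.Point.add_self_of_Y_ne` (or `add_some`), the slope is `3 x² / (2 y)` (`Affine.slope_of_Y_ne`): put `m = 3 x² / (2 y)`;
`x₂ = m² - 2 x`, `y₂ = -(y + m (x₂ - x))`; the two identities by `field_simp` and `linear_combination (..) * h` with `h : y² = x³ + d`
(Sage/hand: `9 x⁴ - 8 x y² = x (x³ - 8 d) + 8 x (x³ + d - y²)`).
(`three_zero`) `3 P = 2 P + P`. If `x = 0` then `y² = d ≠ 0`, `x₂ = 0`, `y₂ = -y`. If `x³ = -4 d` then `y² = -3 d`, `x₂ = x`, `y₂ = -y`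
(from the identities of `two_crv`, cancel `4 y²` and `8 y³`). So `2 P = -P`.
(`three_crv`) if `y = 0` then `2 P = 0`, `3 P = P`, `x³ = -d`, and both sides of the identities agree. If `y ≠ 0` then
`x₂ - x = -3 x (x³ + 4 d) / (4 y²) ≠ 0`, `y₂ - y = (-7 x⁶ + 4 x³ d - 16 d²) / (8 y³)`, the slope of `2 P + P` is
`m = (7 x⁶ - 4 x³ d + 16 d²) / (6 x y (x³ + 4 d))`, `x₃ = m² - x₂ - x`, `y₃ = -(y + m (x₃ - x))`. Checked for `d = -2`, `P = (3, 5)`:
`3 P = (164323 / 29241, -66234835 / 5000211)`. For the identities substitute `x₂ = x (x³ - 8 d) / (4 y²)` and then `d = y² - x³`; `field_simp; ring`.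
There are models for the use of the addition law in `MP_1a91b9_ntX/DB/Defs.lean` (`mk_dbl`, `mk_add`) and `MP_1a91b9_ntT/PL/TamB.lean`.
-/

set_option autoImplicit false

namespace Pool.Agent.Lib.MP_1a91b9_ntX.PL

open WeierstrassCurve Pool.Agent.Lib.MP_1a91b9_ntX.LF

section
variable {k : Type*} [Field k] (h2 : (2 : k) ≠ 0) (h3 : (3 : k) ≠ 0) {d : k} (hd : d ≠ 0)

theorem eq_crv {x y : k} (h : (crv d).toAffine.Nonsingular x y) : y ^ 2 = x ^ 3 + d := by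
  have h1 := h.1
  rw [Affine.equation_iff] at h1
  simp only [crv] at h1
  linear_combination h1

include h2 h3 hd in
theorem nons_crv (x y : k) : (crv d).toAffine.Nonsingular x y ↔ y ^ 2 = x ^ 3 + d := by
  constructor
  · exact eq_crv
  · intro h
    rw [Affine.nonsingular_iff']
    simp only [crv, zero_mul, add_zero, mul_zero, zero_sub, ne_eq, neg_eq_zero]
    refine ⟨?_, ?_⟩
    · rw [Affine.equation_iff]
      simp only [zero_mul, add_zero]
      exact h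
    · by_contra hc
      push Not at hc
      obtain ⟨hx, hy⟩ := hc
      have hx0 : x = 0 := by
        have h1 := (mul_eq_zero.1 hx).resolve_left h3
        exact pow_eq_zero_iff (two_ne_zero) |>.1 h1
      have hy0 : y = 0 := (mul_eq_zero.1 hy).resolve_left h2
      apply hd
      rw [hx0, hy0] at h
      linear_combination -h

variable [DecidableEq k]

omit [DecidableEq k] in
private theorem TmA_negY (x y : k) : (crv d).toAffine.negY x y = -y := by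
  rw [Affine.negY]
  simp only [crv]
  ring

include h2 in
private theorem TmA_dbl {x y : k} (h : (crv d).toAffine.Nonsingular x y) (hy : y ≠ 0) {m : k}
    (hm : m * (2 * y) = 3 * x ^ 2) :
    ∃ (x₂ y₂ : k) (h₂ : (crv d).toAffine.Nonsingular x₂ y₂),
      (2 : ℕ) • (Affine.Point.some x y h : (crv d).toAffine.Point) = Affine.Point.some x₂ y₂ h₂ ∧
      x₂ = m ^ 2 - 2 * x ∧ y₂ = -(y + m * (x₂ - x)) := by
  have hn : y ≠ (crv d).toAffine.negY x y := by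
    rw [TmA_negY]
    intro e
    have h4 : (2 : k) * y = 0 := by linear_combination e
    exact hy ((mul_eq_zero.1 h4).resolve_left h2)
  have hs : (crv d).toAffine.slope x x y y = m := by
    rw [Affine.slope_of_Y_ne rfl hn, TmA_negY]
    have h5 : y - -y = 2 * y := by ring
    have h6 : (2 : k) * y ≠ 0 := mul_ne_zero h2 hy
    rw [h5, div_eq_iff h6, hm]
    simp only [crv]
    ring
  have key := Affine.Point.add_self_of_Y_ne (h₁ := h) hn
  rw [← two_nsmul] at key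
  refine ⟨_, _, _, key, ?_, ?_⟩
  · rw [hs, Affine.addX]
    simp only [crv]
    ring
  · rw [hs, Affine.addY, Affine.negAddY, TmA_negY]
    ring

private theorem TmA_add {x₁ y₁ x₂ y₂ : k} (h₁ : (crv d).toAffine.Nonsingular x₁ y₁)
    (h₂ : (crv d).toAffine.Nonsingular x₂ y₂) (hx : x₁ ≠ x₂) {m : k}
    (hm : m * (x₁ - x₂) = y₁ - y₂) :
    ∃ (x₃ y₃ : k) (h₃ : (crv d).toAffine.Nonsingular x₃ y₃),
      (Affine.Point.some x₁ y₁ h₁ : (crv d).toAffine.Point) + Affine.Point.some x₂ y₂ h₂ =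
        Affine.Point.some x₃ y₃ h₃ ∧
      x₃ = m ^ 2 - x₁ - x₂ ∧ y₃ = -(y₁ + m * (x₃ - x₁)) := by
  have hs : (crv d).toAffine.slope x₁ x₂ y₁ y₂ = m := by
    rw [Affine.slope_of_X_ne hx, div_eq_iff (sub_ne_zero.2 hx), hm]
  have key := Affine.Point.add_of_X_ne (h₁ := h₁) (h₂ := h₂) hx
  refine ⟨_, _, _, key, ?_, ?_⟩
  · rw [hs, Affine.addX]
    simp only [crv]
    ring
  · rw [hs, Affine.addY, Affine.negAddY, TmA_negY]
    ring

theorem two_zero {x y : k} (h : (crv d).toAffine.Nonsingular x y) (hy : y = 0) :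
    (2 : ℕ) • (Affine.Point.some x y h : (crv d).toAffine.Point) = 0 := by
  rw [two_nsmul]
  refine Affine.Point.add_self_of_Y_eq ?_
  rw [TmA_negY, hy, neg_zero]

include h2 in
theorem two_crv {x y : k} (h : (crv d).toAffine.Nonsingular x y) (hy : y ≠ 0) :
    ∃ (x₂ y₂ : k) (h₂ : (crv d).toAffine.Nonsingular x₂ y₂),
      (2 : ℕ) • (Affine.Point.some x y h : (crv d).toAffine.Point) = Affine.Point.some x₂ y₂ h₂ ∧
      4 * y ^ 2 * x₂ = x * (x ^ 3 - 8 * d) ∧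
      8 * y ^ 3 * y₂ = y ^ 4 + 18 * d * y ^ 2 - 27 * d ^ 2 := by
  have hc := eq_crv h
  have h6 : (2 : k) * y ≠ 0 := mul_ne_zero h2 hy
  obtain ⟨m, hm⟩ : ∃ m : k, m * (2 * y) = 3 * x ^ 2 := ⟨3 * x ^ 2 / (2 * y), div_mul_cancel₀ _ h6⟩
  obtain ⟨x₂, y₂, h₂, e, ex, ey⟩ := TmA_dbl h2 h hy hm
  refine ⟨x₂, y₂, h₂, e, ?_, ?_⟩
  · rw [ex]
    linear_combination (m * (2 * y) + 3 * x ^ 2) * hm - 8 * x * hc
  · have e2 : 4 * y ^ 2 * x₂ = x * (x ^ 3 - 8 * d) := by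
      rw [ex]
      linear_combination (m * (2 * y) + 3 * x ^ 2) * hm - 8 * x * hc
    have e3 : 8 * y ^ 3 * y₂ = -(8 * y ^ 4 + 3 * x ^ 2 * (x * (x ^ 3 - 8 * d) - 4 * y ^ 2 * x)) := by
      rw [ey]
      linear_combination (-(4 * y ^ 2 * (x₂ - x))) * hm - 3 * x ^ 2 * e2
    rw [e3]
    have hx3 : x ^ 3 = y ^ 2 - d := by linear_combination -hc
    have e4 : -(8 * y ^ 4 + 3 * x ^ 2 * (x * (x ^ 3 - 8 * d) - 4 * y ^ 2 * x)) =
        -(8 * y ^ 4 + 3 * (x ^ 3) * (x ^ 3 - 8 * d) - 12 * y ^ 2 * x ^ 3) := by ring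
    rw [e4, hx3]
    ring

include h2 h3 hd in
theorem three_zero {x y : k} (h : (crv d).toAffine.Nonsingular x y) (hx : x * (x ^ 3 + 4 * d) = 0) :
    (3 : ℕ) • (Affine.Point.some x y h : (crv d).toAffine.Point) = 0 := by
  have hc := eq_crv h
  have hy : y ≠ 0 := by
    intro hy
    rcases mul_eq_zero.1 hx with h1 | h1
    · rw [h1, hy] at hc
      apply hd
      linear_combination -hc
    · rw [hy] at hc
      have h4 : (3 : k) * d = 0 := by linear_combination hc + h1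
      exact hd ((mul_eq_zero.1 h4).resolve_left h3)
  obtain ⟨x₂, y₂, h₂, e, ex, ey⟩ := two_crv h2 h hy
  have h4 : (4 : k) ≠ 0 := by
    have e4 : (4 : k) = 2 * 2 := by norm_num
    rw [e4]
    exact mul_ne_zero h2 h2
  have h8 : (8 : k) ≠ 0 := by
    have e8 : (8 : k) = 2 * 4 := by norm_num
    rw [e8]
    exact mul_ne_zero h2 h4
  have hxx : x₂ = x := by
    have h5 : 4 * y ^ 2 * (x₂ - x) = 0 := by
      have h6 : 4 * y ^ 2 * (x₂ - x) = -3 * (x * (x ^ 3 + 4 * d)) := by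
        linear_combination ex - 4 * x * hc
      rw [h6, hx, mul_zero]
    have h6 : (4 : k) * y ^ 2 ≠ 0 := mul_ne_zero h4 (pow_ne_zero 2 hy)
    exact sub_eq_zero.1 ((mul_eq_zero.1 h5).resolve_left h6)
  have hyy : y₂ = -y := by
    have h5 : 8 * y ^ 3 * (y₂ + y) = 0 := by
      have h6 : 8 * y ^ 3 * (y₂ + y) = 9 * (y ^ 2 - d) * (y ^ 2 + 3 * d) := by
        linear_combination ey
      have h7 : x ^ 3 * (x ^ 3 + 4 * d) = 0 := by
        linear_combination x ^ 2 * hx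
      rw [h6]
      linear_combination 9 * h7 + 9 * (y ^ 2 + x ^ 3 + 3 * d) * hc
    have h6 : (8 : k) * y ^ 3 ≠ 0 := mul_ne_zero h8 (pow_ne_zero 3 hy)
    exact eq_neg_of_add_eq_zero_left ((mul_eq_zero.1 h5).resolve_left h6)
  subst hxx
  subst hyy
  have e5 : (3 : ℕ) • (Affine.Point.some x₂ y h : (crv d).toAffine.Point) =
      (2 : ℕ) • (Affine.Point.some x₂ y h : (crv d).toAffine.Point) + Affine.Point.some x₂ y h :=
    succ_nsmul _ 2
  rw [e5, e]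
  refine Affine.Point.add_of_Y_eq rfl ?_
  rw [TmA_negY]

include h2 h3 in
theorem three_crv {x y : k} (h : (crv d).toAffine.Nonsingular x y) (hx : x * (x ^ 3 + 4 * d) ≠ 0) :
    ∃ (x₃ y₃ : k) (h₃ : (crv d).toAffine.Nonsingular x₃ y₃),
      (3 : ℕ) • (Affine.Point.some x y h : (crv d).toAffine.Point) = Affine.Point.some x₃ y₃ h₃ ∧
      9 * x ^ 2 * (x ^ 3 + 4 * d) ^ 2 * x₃ =
        x ^ 9 - 96 * d * x ^ 6 + 48 * d ^ 2 * x ^ 3 + 64 * d ^ 3 ∧
      27 * x ^ 3 * (x ^ 3 + 4 * d) ^ 3 * y₃ =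
        y * (y ^ 2 - 9 * d) * (y ^ 6 + 225 * d * y ^ 4 - 405 * d ^ 2 * y ^ 2 + 243 * d ^ 3) := by
  have hc := eq_crv h
  have h4 : (4 : k) ≠ 0 := by
    have e4 : (4 : k) = 2 * 2 := by norm_num
    rw [e4]
    exact mul_ne_zero h2 h2
  have e5 : (3 : ℕ) • (Affine.Point.some x y h : (crv d).toAffine.Point) =
      (2 : ℕ) • (Affine.Point.some x y h : (crv d).toAffine.Point) + Affine.Point.some x y h :=
    succ_nsmul _ 2
  by_cases hy : y = 0
  · refine ⟨x, y, h, ?_, ?_, ?_⟩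
    · rw [e5, two_zero h hy, zero_add]
    · have hx3 : x ^ 3 = -d := by
        rw [hy] at hc
        linear_combination -hc
      have e6 : 9 * x ^ 2 * (x ^ 3 + 4 * d) ^ 2 * x = 9 * x ^ 3 * (x ^ 3 + 4 * d) ^ 2 := by ring
      have e7 : x ^ 9 - 96 * d * x ^ 6 + 48 * d ^ 2 * x ^ 3 + 64 * d ^ 3 =
          (x ^ 3) ^ 3 - 96 * d * (x ^ 3) ^ 2 + 48 * d ^ 2 * x ^ 3 + 64 * d ^ 3 := by ring
      rw [e6, e7, hx3]
      ring
    · rw [hy]
      ring
  · obtain ⟨x₂, y₂, h₂, e, ex, ey⟩ := two_crv h2 h hy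
    have hne : (4 : k) * y ^ 2 ≠ 0 := mul_ne_zero h4 (pow_ne_zero 2 hy)
    have hdx : 4 * y ^ 2 * (x₂ - x) = -3 * (x * (x ^ 3 + 4 * d)) := by
      linear_combination ex - 4 * x * hc
    have hxx : x₂ ≠ x := by
      intro hx2
      rw [hx2, sub_self, mul_zero] at hdx
      have h7 : (3 : k) * (x * (x ^ 3 + 4 * d)) = 0 := by linear_combination hdx
      exact hx ((mul_eq_zero.1 h7).resolve_left h3)
    obtain ⟨m, hm⟩ : ∃ m : k, m * (x₂ - x) = y₂ - y := ⟨(y₂ - y) / (x₂ - x), div_mul_cancel₀ _ (sub_ne_zero.2 hxx)⟩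
    obtain ⟨x₃, y₃, h₃, f, fx, fy⟩ := TmA_add h₂ h hxx hm
    -- the slope
    have hmm : m * (6 * x * y * (x ^ 3 + 4 * d)) = 7 * x ^ 6 - 4 * x ^ 3 * d + 16 * d ^ 2 := by
      have h8 : 8 * y ^ 3 * (y₂ - y) = -7 * x ^ 6 + 4 * x ^ 3 * d - 16 * d ^ 2 := by
        linear_combination ey + (-7 * (y ^ 2 + x ^ 3 + d) + 18 * d) * hc
      have h9 : 8 * y ^ 3 * (m * (x₂ - x)) = -7 * x ^ 6 + 4 * x ^ 3 * d - 16 * d ^ 2 := by
        rw [hm, h8]
      linear_combination -h9 + 2 * y * m * hdx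
    obtain ⟨A, hA⟩ : ∃ A : k, A = x * (x ^ 3 + 4 * d) := ⟨_, rfl⟩
    have hA0 : A ≠ 0 := by rw [hA]; exact hx
    obtain ⟨B, hB⟩ : ∃ B : k, B = 7 * x ^ 6 - 4 * x ^ 3 * d + 16 * d ^ 2 := ⟨_, rfl⟩
    have hmA : m * (6 * y * A) = B := by rw [hA, hB]; linear_combination hmm
    refine ⟨x₃, y₃, h₃, ?_, ?_, ?_⟩
    · rw [e5, e, f]
    · have g1 : 36 * y ^ 2 * A ^ 2 * x₃ = B ^ 2 - 9 * A ^ 2 * (4 * y ^ 2 * x₂ + 4 * y ^ 2 * x) := by
        rw [fx]
        linear_combination (m * (6 * y * A) + B) * hmA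
      rw [ex] at g1
      have g2 : (4 * y ^ 2) * (9 * x ^ 2 * (x ^ 3 + 4 * d) ^ 2 * x₃) =
          (4 * y ^ 2) * (x ^ 9 - 96 * d * x ^ 6 + 48 * d ^ 2 * x ^ 3 + 64 * d ^ 3) := by
        have g3 : (4 * y ^ 2) * (9 * x ^ 2 * (x ^ 3 + 4 * d) ^ 2 * x₃) = 36 * y ^ 2 * A ^ 2 * x₃ := by
          rw [hA]; ring
        rw [g3, g1, hA, hB, hc]
        ring
      exact mul_left_cancel₀ hne g2
    · have k1 : (4 * y ^ 2) * (9 * A ^ 2 * x₃) =
          (4 * y ^ 2) * (x ^ 9 - 96 * d * x ^ 6 + 48 * d ^ 2 * x ^ 3 + 64 * d ^ 3) := by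
        have g1 : 36 * y ^ 2 * A ^ 2 * x₃ = B ^ 2 - 9 * A ^ 2 * (4 * y ^ 2 * x₂ + 4 * y ^ 2 * x) := by
          rw [fx]
          linear_combination (m * (6 * y * A) + B) * hmA
        rw [ex] at g1
        have g3 : (4 * y ^ 2) * (9 * A ^ 2 * x₃) = 36 * y ^ 2 * A ^ 2 * x₃ := by
          ring
        rw [g3, g1, hA, hB, hc]
        ring
      have k2 := mul_left_cancel₀ hne k1
      -- `y₃ = -(y + m (x₃ - x))`
      have k3 : y₃ = -(y + m * (x₃ - x)) := by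
        rw [fy]
        linear_combination hm
      have k4 : (2 * y) * (27 * A ^ 3 * y₃) =
          -(54 * y ^ 2 * A ^ 3 + B * (9 * A ^ 2 * x₃ - 9 * A ^ 2 * x)) := by
        rw [k3]
        linear_combination (-(9 * A ^ 2 * (x₃ - x))) * hmA
      have hne2 : (2 : k) * y ≠ 0 := mul_ne_zero h2 hy
      refine mul_left_cancel₀ hne2 ?_
      have k5 : (2 * y) * (27 * x ^ 3 * (x ^ 3 + 4 * d) ^ 3 * y₃) = (2 * y) * (27 * A ^ 3 * y₃) := by
        rw [hA]; ring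
      rw [k5, k4, k2, hA, hB]
      have hx3 : x ^ 3 = y ^ 2 - d := by linear_combination -hc
      have k6 : ∀ X : k, X = x ^ 3 → -(54 * y ^ 2 * (x * (x ^ 3 + 4 * d)) ^ 3 +
          (7 * x ^ 6 - 4 * x ^ 3 * d + 16 * d ^ 2) *
            (x ^ 9 - 96 * d * x ^ 6 + 48 * d ^ 2 * x ^ 3 + 64 * d ^ 3 -
              9 * (x * (x ^ 3 + 4 * d)) ^ 2 * x)) =
          -(54 * y ^ 2 * (X * (X + 4 * d) ^ 3) + (7 * X ^ 2 - 4 * X * d + 16 * d ^ 2) *
            (X ^ 3 - 96 * d * X ^ 2 + 48 * d ^ 2 * X + 64 * d ^ 3 - 9 * X * (X + 4 * d) ^ 2)) := by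
        intro X hX
        rw [hX]
        ring
      rw [k6 _ rfl, hx3]
      ring

end

end Pool.Agent.Lib.MP_1a91b9_ntX.PL
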