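import Pool.Agent.Lib.MP_1a91b9_ntX.PL.TmA

/-!
# Tamagawa numbers of `y² = x³ + d`: residue characteristic `2`

JOB TmB. `v` is a valuation of `k` with values in `ℤᵐ⁰`, `v 2 < 1` (so `v 3 = 1`).

PROOF. Write `|x| = v x`. `|3| = 1` (`3 = 1 + 2`, `Valuation.map_add_eq_of_lt_left`).
(`step2`) `P = (x, y)`, `|4 d| < |x|³`. If `y = 0` then `2 P = 0`. Else by `two_crv` `|4| |y|² |x₂| = |x| |x³ - 8 d|`, and `|8 d| < |4 d| < |x|³` (`d ≠ 0`), so
`|x³ - 8 d| = |x|³`; `|y|² = |x³ + d| ≤ max(|x|³, |d|)`. If `|d| ≤ |x|³` then `|x|⁴ = |4| |y|² |x₂| ≤ |4| |x|³ |x₂|`, so `|x| ≤ |4| |x₂| < |x₂|`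
(`x ≠ 0`). If `|x|³ < |d|` then `|x|⁴ ≤ |4 d| |x₂| < |x|³ |x₂|`, so `|x| < |x₂|`.
(`big2`) `ℤᵐ⁰` is discrete: `a < b` implies `a * exp 1 ≤ b` (write `a = exp m`, `b = exp n` with `WithZero.exp_log`). By induction on `j`:
there is an `n` with `2^n P = 0` or `2^n P = (x', y')`, `|x'| ≥ |x| exp j` (and still `|4 d| < |x'|³`). Choose `j` with `M < |x| exp j`
(`|x| ≠ 0`; if `M = 0` clear; `j = (log M - log |x| + 1).toNat`). Note `Big v M 0` holds. `2 ^ (n+1) • P = 2 • (2 ^ n • P)` (`pow_succ'`, `mul_nsmul`/`mul_smul`).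
(`three2`) `P = (x, y)`, `|x|³ < |4 d|`. If `x (x³ + 4 d) = 0` then `3 P = 0`. Otherwise `|x³ + 4 d| = |4 d|`, the numerator of `three_crv` has value
`|64 d³| = |4 d|³` (the other terms are smaller: `|x|⁹ < |4 d|³`; `|96 d x⁶| = |32 d| |x|⁶ ≤ |4 d| |x|⁶ < |4 d|³`; `|48 d² x³| = |16 d²| |x|³ < |4 d|³`),
so `|x|² |4 d|² |x₃| = |4 d|³`, `|x|² |x₃| = |4 d|`; then `|x|⁶ |x₃|³ = |4 d|³ > |4 d| |x|⁶`, so `|x₃|³ > |4 d|`.
(`tri2`) cases `P = 0`; `|x|³ = |4 d|`; `>` : `3 * 2^n • P = 3 • (2^n • P)`: careful: apply `big2` to `P` gives `2^n P` big; but we want `(3 * 2^n) • P` big, so use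
instead: if `|4 d| < |x|³` then with `Q = 3 P`: easier to apply `big2` with a larger `M' = max M (v (4 * d))`..., see below.

To avoid the problem with `3 • big`, the statement of `tri2` is `∃ m, m = 1 ∨ m = 3` and `(2^n * m) • P` is big. Then the case `>` has `m = 1`, the case `<` has
`m = 3` (`(2^n * 3) • P = 2^n • (3 • P)`, `mul_smul`).
-/

set_option autoImplicit false

namespace Pool.Agent.Lib.MP_1a91b9_ntX.PL

open WeierstrassCurve WithZero Pool.Agent.Lib.MP_1a91b9_ntX.LF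

/-- the point at infinity and the points with large coordinate `x` -/
def Big {k : Type*} [Field k] (v : Valuation k ℤᵐ⁰) (M : ℤᵐ⁰) {d : k}
    (P : (crv d).toAffine.Point) : Prop :=
  P = 0 ∨ ∃ (x y : k) (h : (crv d).toAffine.Nonsingular x y), P = Affine.Point.some x y h ∧ M < v x

private theorem TmB_disc {a b : ℤᵐ⁰} (ha : a ≠ 0) (hab : a < b) : a * exp 1 ≤ b := by
  have hb : b ≠ 0 := ne_zero_of_lt hab
  rw [← exp_log ha, ← exp_log hb, exp_lt_exp] at hab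
  rw [← exp_log ha, ← exp_log hb, ← exp_add, exp_le_exp]
  omega

private theorem TmB_large {a : ℤᵐ⁰} (ha : a ≠ 0) (M : ℤᵐ⁰) : ∃ j : ℕ, M < a * exp (j : ℤ) := by
  by_cases hM : M = 0
  · refine ⟨0, ?_⟩
    rw [hM, Nat.cast_zero, exp_zero, mul_one]
    exact zero_lt_iff.2 ha
  · refine ⟨(log M - log a + 1).toNat, ?_⟩
    rw [← exp_log hM, ← exp_log ha, ← exp_add, exp_lt_exp, log_exp, log_exp]
    have := Int.self_le_toNat (log M - log a + 1)
    omega

private theorem TmB_one_le (j : ℕ) : (1 : ℤᵐ⁰) ≤ exp (j : ℤ) := by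
  rw [← exp_zero, exp_le_exp]
  exact Int.natCast_nonneg j

section
variable {k : Type*} [Field k] [DecidableEq k] (h2 : (2 : k) ≠ 0) (h3 : (3 : k) ≠ 0) {d : k}
  (hd : d ≠ 0) (v : Valuation k ℤᵐ⁰) (hv : v 2 < 1)
include h2 h3 hd hv

omit [DecidableEq k] h3 in
private theorem TmB_four : v (4 * d) ≠ 0 := by
  rw [Ne, map_eq_zero]
  have h4 : (4 : k) = 2 * 2 := by norm_num
  rw [h4]
  exact mul_ne_zero (mul_ne_zero h2 h2) hd

theorem step2 {x y : k} (h : (crv d).toAffine.Nonsingular x y) (hx : v (4 * d) < v x ^ 3) :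
    (2 : ℕ) • (Affine.Point.some x y h : (crv d).toAffine.Point) = 0 ∨
    ∃ (x₂ y₂ : k) (h₂ : (crv d).toAffine.Nonsingular x₂ y₂),
      (2 : ℕ) • (Affine.Point.some x y h : (crv d).toAffine.Point) = Affine.Point.some x₂ y₂ h₂ ∧
      v x < v x₂ := by
  have hB0 : v (4 * d) ≠ 0 := TmB_four h2 hd v hv
  have hx3 : v x ^ 3 ≠ 0 := ne_zero_of_lt hx
  have hx0 : v x ≠ 0 := fun h0 => hx3 (by rw [h0]; exact zero_pow (by norm_num))
  have hxp : 0 < v x := zero_lt_iff.2 hx0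
  by_cases hy : y = 0
  · exact Or.inl (two_zero h hy)
  · obtain ⟨x₂, y₂, h₂, e1, e2, -⟩ := two_crv h2 h hy
    refine Or.inr ⟨x₂, y₂, h₂, e1, ?_⟩
    have hcrv := eq_crv h
    have h8 : v (8 * d) < v (x ^ 3) := by
      have e8 : (8 * d : k) = 2 * (4 * d) := by ring
      rw [e8, map_mul, map_pow]
      refine lt_trans ?_ hx
      calc v 2 * v (4 * d) < 1 * v (4 * d) := mul_lt_mul_of_pos_right hv (zero_lt_iff.2 hB0)
        _ = v (4 * d) := one_mul _
    have e3 : v 4 * v y ^ 2 * v x₂ = v x ^ 3 * v x := by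
      have e4 := congrArg v e2
      rw [map_mul, map_mul, map_pow, map_mul, Valuation.map_sub_eq_of_lt_left v h8, map_pow] at e4
      rw [e4, mul_comm]
    have hy2 : v y ^ 2 ≤ max (v x ^ 3) (v d) := by
      rw [← map_pow, hcrv, ← map_pow]
      exact v.map_add _ _
    have h4lt : v 4 < 1 := by
      have e4 : (4 : k) = 2 * 2 := by norm_num
      rw [e4, map_mul]
      calc v 2 * v 2 ≤ v 2 * 1 := mul_le_mul_right hv.le _
        _ = v 2 := mul_one _
        _ < 1 := hv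
    have hx20 : v x₂ ≠ 0 := by
      intro h0
      rw [h0, mul_zero] at e3
      exact mul_ne_zero hx3 hx0 e3.symm
    have hx2p : 0 < v x₂ := zero_lt_iff.2 hx20
    rcases le_or_gt (v d) (v x ^ 3) with hd1 | hd1
    · rw [max_eq_left hd1] at hy2
      have h5 : v x ^ 3 * v x ≤ v x ^ 3 * (v 4 * v x₂) := by
        rw [← e3]
        calc v 4 * v y ^ 2 * v x₂ ≤ v 4 * v x ^ 3 * v x₂ :=
              mul_le_mul_left (mul_le_mul_right hy2 _) _
          _ = v x ^ 3 * (v 4 * v x₂) := by rw [mul_comm (v 4), mul_assoc]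
      have h6 : v x ≤ v 4 * v x₂ := le_of_mul_le_mul_left h5 (zero_lt_iff.2 hx3)
      calc v x ≤ v 4 * v x₂ := h6
        _ < 1 * v x₂ := mul_lt_mul_of_pos_right h4lt hx2p
        _ = v x₂ := one_mul _
    · rw [max_eq_right hd1.le] at hy2
      have h5 : v x ^ 3 * v x < v x ^ 3 * v x₂ := by
        rw [← e3]
        calc v 4 * v y ^ 2 * v x₂ ≤ v 4 * v d * v x₂ :=
              mul_le_mul_left (mul_le_mul_right hy2 _) _
          _ = v (4 * d) * v x₂ := by rw [map_mul]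
          _ < v x ^ 3 * v x₂ := mul_lt_mul_of_pos_right hx hx2p
      exact lt_of_mul_lt_mul_left h5 zero_le

theorem big2 {x y : k} (h : (crv d).toAffine.Nonsingular x y) (hx : v (4 * d) < v x ^ 3)
    (M : ℤᵐ⁰) : ∃ n : ℕ, Big v M (2 ^ n • (Affine.Point.some x y h : (crv d).toAffine.Point)) := by
  have hx3 : v x ^ 3 ≠ 0 := ne_zero_of_lt hx
  have hx0 : v x ≠ 0 := fun h0 => hx3 (by rw [h0]; exact zero_pow (by norm_num))
  have key : ∀ j : ℕ, ∃ n : ℕ, 2 ^ n • (Affine.Point.some x y h : (crv d).toAffine.Point) = 0 ∨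
      ∃ (x' y' : k) (h' : (crv d).toAffine.Nonsingular x' y'),
        2 ^ n • (Affine.Point.some x y h : (crv d).toAffine.Point) = Affine.Point.some x' y' h' ∧
        v x * exp (j : ℤ) ≤ v x' := by
    intro j
    induction j with
    | zero =>
      refine ⟨0, Or.inr ⟨x, y, h, ?_, ?_⟩⟩
      · rw [pow_zero, one_smul]
      · rw [Nat.cast_zero, exp_zero, mul_one]
    | succ j ih =>
      obtain ⟨n, hn | ⟨x', y', h', e1, e2⟩⟩ := ih
      · exact ⟨n, Or.inl hn⟩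
      · have hxx : v x ≤ v x' := by
          refine le_trans ?_ e2
          calc v x = v x * 1 := (mul_one _).symm
            _ ≤ v x * exp (j : ℤ) := mul_le_mul_right (TmB_one_le j) _
        have hx' : v (4 * d) < v x' ^ 3 := lt_of_lt_of_le hx (pow_le_pow_left' hxx 3)
        have e3 : 2 ^ (n + 1) • (Affine.Point.some x y h : (crv d).toAffine.Point) =
            (2 : ℕ) • (Affine.Point.some x' y' h' : (crv d).toAffine.Point) := by
          rw [pow_succ', mul_smul, e1]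
        rcases step2 h2 h3 hd v hv h' hx' with h0 | ⟨x₂, y₂, h₂, e4, e5⟩
        · exact ⟨n + 1, Or.inl (e3.trans h0)⟩
        · refine ⟨n + 1, Or.inr ⟨x₂, y₂, h₂, e3.trans e4, ?_⟩⟩
          have hx'0 : v x' ≠ 0 := ne_of_gt (lt_of_lt_of_le (zero_lt_iff.2 hx0) hxx)
          calc v x * exp ((j + 1 : ℕ) : ℤ) = v x * exp (j : ℤ) * exp 1 := by
                rw [mul_assoc, ← exp_add]
                push_cast
                rfl
            _ ≤ v x' * exp 1 := mul_le_mul_left e2 _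
            _ ≤ v x₂ := TmB_disc hx'0 e5
  obtain ⟨j, hj⟩ := TmB_large hx0 M
  obtain ⟨n, hn | ⟨x', y', h', e1, e2⟩⟩ := key j
  · exact ⟨n, Or.inl hn⟩
  · exact ⟨n, Or.inr ⟨x', y', h', e1, lt_of_lt_of_le hj e2⟩⟩

theorem three2 {x y : k} (h : (crv d).toAffine.Nonsingular x y) (hx : v x ^ 3 < v (4 * d)) :
    (3 : ℕ) • (Affine.Point.some x y h : (crv d).toAffine.Point) = 0 ∨
    ∃ (x₂ y₂ : k) (h₂ : (crv d).toAffine.Nonsingular x₂ y₂),
      (3 : ℕ) • (Affine.Point.some x y h : (crv d).toAffine.Point) = Affine.Point.some x₂ y₂ h₂ ∧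
      v (4 * d) < v x₂ ^ 3 := by
  by_cases hx0 : x * (x ^ 3 + 4 * d) = 0
  · exact Or.inl (three_zero h2 h3 hd h hx0)
  · obtain ⟨x₃, y₃, h₃, e1, e2, -⟩ := three_crv h2 h3 h hx0
    refine Or.inr ⟨x₃, y₃, h₃, e1, ?_⟩
    have hxn : x ≠ 0 := left_ne_zero_of_mul hx0
    have hvx : v x ≠ 0 := (Valuation.ne_zero_iff v).2 hxn
    have hB0 : v (4 * d) ≠ 0 := TmB_four h2 hd v hv
    obtain ⟨B, hB⟩ : ∃ B, B = v (4 * d) := ⟨_, rfl⟩
    obtain ⟨A, hA⟩ : ∃ A, A = v x ^ 3 := ⟨_, rfl⟩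
    rw [← hA, ← hB] at hx
    rw [← hB] at hB0
    rw [← hB]
    have hBp : 0 < B := zero_lt_iff.2 hB0
    have hAp : 0 < A := by
      rw [hA]
      exact zero_lt_iff.2 (pow_ne_zero 3 hvx)
    have hv3 : v 3 = 1 := by
      have e3 : (3 : k) = 2 + 1 := by norm_num
      have h21 : v 2 < v 1 := by rw [map_one]; exact hv
      rw [e3, Valuation.map_add_eq_of_lt_right v h21, map_one]
    have hv9 : v 9 = 1 := by
      have e3 : (9 : k) = 3 * 3 := by norm_num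
      rw [e3, map_mul, hv3, one_mul]
    have hv24 : v 24 ≤ 1 := by
      have e3 : (24 : k) = 2 * 2 * 2 * 3 := by norm_num
      rw [e3, map_mul, map_mul, map_mul, hv3, mul_one]
      exact mul_le_one' (mul_le_one' hv.le hv.le) hv.le
    have hs : v (x ^ 3 + 4 * d) = B := by
      have h1 : v (x ^ 3) < v (4 * d) := by rw [map_pow, ← hA, ← hB]; exact hx
      rw [Valuation.map_add_eq_of_lt_right v h1, hB]
    -- the right hand side
    have f1 : v (x ^ 9) < B ^ 3 := by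
      have e3 : x ^ 9 = (x ^ 3) ^ 3 := by ring
      rw [e3, map_pow, map_pow, ← hA]
      exact pow_lt_pow_left₀ hx zero_le (by norm_num)
    have f2 : v (96 * d * x ^ 6) < B ^ 3 := by
      have e3 : 96 * d * x ^ 6 = 24 * (4 * d) * (x ^ 3) ^ 2 := by ring
      rw [e3, map_mul, map_mul, map_pow, map_pow, ← hA, ← hB]
      calc v 24 * B * A ^ 2 ≤ 1 * B * A ^ 2 := mul_le_mul_left (mul_le_mul_left hv24 _) _
        _ = B * A ^ 2 := by rw [one_mul]
        _ < B * B ^ 2 := mul_lt_mul_of_pos_left (pow_lt_pow_left₀ hx zero_le (by norm_num)) hBp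
        _ = B ^ 3 := by rw [← pow_succ']
    have f3 : v (48 * d ^ 2 * x ^ 3) < B ^ 3 := by
      have e3 : 48 * d ^ 2 * x ^ 3 = 3 * (4 * d) ^ 2 * x ^ 3 := by ring
      rw [e3, map_mul, map_mul, map_pow, map_pow, ← hA, ← hB, hv3, one_mul]
      calc B ^ 2 * A < B ^ 2 * B := mul_lt_mul_of_pos_left hx (pow_pos hBp 2)
        _ = B ^ 3 := by rw [← pow_succ]
    have f4 : v (64 * d ^ 3) = B ^ 3 := by
      have e3 : 64 * d ^ 3 = (4 * d) ^ 3 := by ring
      rw [e3, map_pow, ← hB]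
    have f5 : v (x ^ 9 - 96 * d * x ^ 6 + 48 * d ^ 2 * x ^ 3) < v (64 * d ^ 3) := by
      rw [f4]
      exact v.map_add_lt (v.map_sub_lt f1 f2) f3
    have f6 : v (x ^ 9 - 96 * d * x ^ 6 + 48 * d ^ 2 * x ^ 3 + 64 * d ^ 3) = B ^ 3 := by
      rw [Valuation.map_add_eq_of_lt_right v f5, f4]
    have e3 := congrArg v e2
    rw [f6, map_mul, map_mul, map_mul, map_pow, map_pow, hs, hv9, one_mul] at e3
    have e4 : v x ^ 2 * v x₃ = B := by
      have h1 : B ^ 2 * (v x ^ 2 * v x₃) = B ^ 2 * B := by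
        rw [← mul_assoc, mul_comm (B ^ 2), e3, ← pow_succ]
      exact mul_left_cancel₀ (pow_ne_zero 2 hB0) h1
    have e5 : A ^ 2 * v x₃ ^ 3 = B ^ 3 := by
      rw [← e4, hA, mul_pow, ← pow_mul, ← pow_mul]
    have h6 : A ^ 2 * B < A ^ 2 * v x₃ ^ 3 := by
      rw [e5]
      calc A ^ 2 * B < B ^ 2 * B :=
            mul_lt_mul_of_pos_right (pow_lt_pow_left₀ hx zero_le (by norm_num)) hBp
        _ = B ^ 3 := by rw [← pow_succ]
    exact lt_of_mul_lt_mul_left h6 zero_le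

theorem tri2 (P : (crv d).toAffine.Point) :
    (∀ M : ℤᵐ⁰, ∃ n m : ℕ, (m = 1 ∨ m = 3) ∧ Big v M ((2 ^ n * m) • P)) ∨
      ∃ x y : k, y ^ 2 = x ^ 3 + d ∧ v x ^ 3 = v (4 * d) := by
  cases P with
  | zero => exact Or.inl fun M => ⟨0, 1, Or.inl rfl, Or.inl (smul_zero _)⟩
  | some x y h =>
    rcases lt_trichotomy (v x ^ 3) (v (4 * d)) with hlt | heq | hgt
    · refine Or.inl fun M => ?_
      rcases three2 h2 h3 hd v hv h hlt with h0 | ⟨x₂, y₂, h₂, e1, e2⟩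
      · refine ⟨0, 3, Or.inr rfl, Or.inl ?_⟩
        rw [pow_zero, one_mul]
        exact h0
      · obtain ⟨n, hn⟩ := big2 h2 h3 hd v hv h₂ e2 M
        refine ⟨n, 3, Or.inr rfl, ?_⟩
        rw [mul_smul, e1]
        exact hn
    · exact Or.inr ⟨x, y, eq_crv h, heq⟩
    · refine Or.inl fun M => ?_
      obtain ⟨n, hn⟩ := big2 h2 h3 hd v hv h hgt M
      refine ⟨n, 1, Or.inl rfl, ?_⟩
      rw [mul_one]
      exact hn

end

end Pool.Agent.Lib.MP_1a91b9_ntX.PL
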