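import Pool.Agent.Lib.MP_1a91b9_ntX.PL.TmB

/-!
# Tamagawa numbers of `y² = x³ + d`: residue characteristic `3`

JOB TmC (uses only the definition `Big` of `TmB.lean`). `v 3 < 1`, so `v 2 = 1`.

PROOF. Write `|x| = v x`; `|2| = 1` (`2 = 3 - 1`), also `|5| = 1` (`5 = 2 + 3`), `|4| = |8| = 1`.
(`step3`) `P = (x, y)`, `|27 d²| < |y|⁴`. If `x (x³ + 4 d) = 0` then `3 P = 0`. Otherwise take `(x₃, y₃)` from `three_crv`, with `x³ = y² - d`,
`x³ + 4 d = y² + 3 d`: `|27| |y² - d| |y² + 3 d|³ |y₃| = |y| |y² - 9 d| |y⁶ + 225 d y⁴ - 405 d² y² + 243 d³|`.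
Claims: `|9 d| < |y|²` (square: `|81 d²| < |27 d²| < |y|⁴`), so `|y² - 9 d| = |y|²`;
`|225 d y⁴| = |9 d| |y|⁴ < |y|⁶`; `|405 d² y²| = |81 d²| |y|² < |27 d²| |y|² < |y|⁶`; `|243 d³| < |y|⁶` (square: `|243 d³|² = |3|^10 |d|^6 < |3|^9 |d|^6 = |27 d²|³ < |y|^12`);
so the right side is `|y| |y|² |y|⁶ = |y|⁹`. And `|y² - d| ≤ max(|y|², |d|)`, `|y² + 3 d| ≤ max(|y|², |3 d|)`. Three cases, with `T = |y₃|`:
 * `|d| ≤ |y|²`: `|y|⁹ ≤ |27| |y|⁸ T`, so `|y| ≤ |27| T < T`.
 * `|3 d| ≤ |y|² < |d|`: `|y|⁹ ≤ |27| |d| |y|⁶ T`, so `|y| |y|² ≤ |27| |d| T = |9| |3 d| T ≤ |9| |y|² T`, so `|y| ≤ |9| T < T`.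
 * `|y|² < |3 d|`: `|y|⁹ ≤ |27| |d| |3 d|³ T = |27 d²|² T < |y|⁸ T`, so `|y| < T`.
(`big3`) iterate as in `big2` of `TmB.lean`: for every `j` there is an `n` with `3^n P = 0` or `3^n P = (x', y')`, `|y'| ≥ |y| exp j`. If `|y'|² > max(|d|, M³, 1..)`
then `|x'|³ = |y'² - d| = |y'|² > M³`, so `|x'| > M`.
(`two3`) `P = (x, y)`, `|y|⁴ < |27 d²|`: if `y = 0` then `2 P = 0`; otherwise by `two_crv` `|y|³ |y₂| = |y⁴ + 18 d y² - 27 d²| = |27 d²|`, since
`|18 d y²| = |9 d| |y|² < |27 d²|` (square: `|81 d²| |y|⁴ < |81 d²| |27 d²| ≤ |27 d²|²·1`, as `|81| < |27|`: `|81 d²| |27 d²| < |27 d²|²`). Then `|y₂|⁴ |y|^12 = |27 d²|⁴` and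
`|y|^12 < |27 d²|³`, so `|y₂|⁴ > |27 d²|`.
(`tri3`) cases `P = 0`, `|y|⁴ = |27 d²|`, `>` (`m = 1`), `<` (`m = 2`).
-/

set_option autoImplicit false

namespace Pool.Agent.Lib.MP_1a91b9_ntX.PL

open WeierstrassCurve WithZero Pool.Agent.Lib.MP_1a91b9_ntX.LF


/-- exponential form of a nonzero value -/
private theorem TmC_exp {k : Type*} [Field k] (v : Valuation k ℤᵐ⁰) {x : k} (hx : x ≠ 0) :
    v x = exp (log (v x)) := (WithZero.exp_log ((Valuation.ne_zero_iff v).2 hx)).symm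

private theorem TmC_two {k : Type*} [Field k] (v : Valuation k ℤᵐ⁰) (hv : v 3 < 1) :
    v 2 = 1 := by
  have e : (2 : k) = 3 - 1 := by norm_num
  rw [e, Valuation.map_sub_eq_of_lt_right v (by rw [map_one]; exact hv), map_one]

private theorem TmC_five {k : Type*} [Field k] (v : Valuation k ℤᵐ⁰) (hv : v 3 < 1) :
    v 5 = 1 := by
  have e : (5 : k) = 2 + 3 := by norm_num
  rw [e, Valuation.map_add_eq_of_lt_left v (by rw [TmC_two v hv]; exact hv), TmC_two v hv]

section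
variable {k : Type*} [Field k] [DecidableEq k] (h2 : (2 : k) ≠ 0) (h3 : (3 : k) ≠ 0) {d : k}
  (hd : d ≠ 0) (v : Valuation k ℤᵐ⁰) (hv : v 3 < 1)
include h2 h3 hd hv

theorem step3 {x y : k} (h : (crv d).toAffine.Nonsingular x y) (hy : v (27 * d ^ 2) < v y ^ 4) :
    (3 : ℕ) • (Affine.Point.some x y h : (crv d).toAffine.Point) = 0 ∨
    ∃ (x₂ y₂ : k) (h₂ : (crv d).toAffine.Nonsingular x₂ y₂),
      (3 : ℕ) • (Affine.Point.some x y h : (crv d).toAffine.Point) = Affine.Point.some x₂ y₂ h₂ ∧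
      v y < v y₂ := by
  by_cases hx : x * (x ^ 3 + 4 * d) = 0
  · exact Or.inl (three_zero h2 h3 hd h hx)
  obtain ⟨x₃, y₃, h₃, hP, -, hy3⟩ := three_crv h2 h3 h hx
  refine Or.inr ⟨x₃, y₃, h₃, hP, ?_⟩
  have hc : y ^ 2 = x ^ 3 + d := eq_crv h
  have hx0 : x ≠ 0 := fun hh => hx (by rw [hh, zero_mul])
  have hx4 : x ^ 3 + 4 * d ≠ 0 := fun hh => hx (by rw [hh, mul_zero])
  have hy0 : y ≠ 0 := by
    rintro rfl
    rw [map_zero, zero_pow (by norm_num)] at hy
    exact absurd hy not_lt_zero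
  have e1 : x ^ 3 = y ^ 2 - d := by linear_combination -hc
  have e2 : x ^ 3 + 4 * d = y ^ 2 + 3 * d := by linear_combination -hc
  have hE0 : y ^ 2 - d ≠ 0 := by rw [← e1]; exact pow_ne_zero 3 hx0
  have hF0 : y ^ 2 + 3 * d ≠ 0 := by rw [← e2]; exact hx4
  have q2 := TmC_two v hv
  have q5 := TmC_five v hv
  have q3 : v 3 = exp (log (v 3)) := TmC_exp v h3
  have qd : v d = exp (log (v d)) := TmC_exp v hd
  have qy : v y = exp (log (v y)) := TmC_exp v hy0
  have qE : v (y ^ 2 - d) = exp (log (v (y ^ 2 - d))) := TmC_exp v hE0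
  have qF : v (y ^ 2 + 3 * d) = exp (log (v (y ^ 2 + 3 * d))) := TmC_exp v hF0
  generalize log (v 3) = t at q3
  generalize log (v d) = D at qd
  generalize log (v y) = a at qy
  generalize log (v (y ^ 2 - d)) = E at qE
  generalize log (v (y ^ 2 + 3 * d)) = F at qF
  have ht : t < 0 := by
    rw [q3, ← exp_zero, exp_lt_exp] at hv
    exact hv
  have qy4 : v y ^ 4 = exp (4 * a) := by
    rw [qy, ← exp_nsmul, nsmul_eq_mul]
    norm_num
  have q27 : v (27 * d ^ 2) = exp (3 * t + 2 * D) := by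
    have e : (27 : k) * d ^ 2 = 3 ^ 3 * d ^ 2 := by norm_num
    rw [e, map_mul, map_pow, map_pow, q3, qd, ← exp_nsmul, ← exp_nsmul, ← exp_add, nsmul_eq_mul,
      nsmul_eq_mul]
    norm_num
  have hlt : 3 * t + 2 * D < 4 * a := by
    rw [q27, qy4, exp_lt_exp] at hy
    exact hy
  have qy2 : v (y ^ 2) = exp (2 * a) := by
    rw [map_pow, qy, ← exp_nsmul, nsmul_eq_mul]
    norm_num
  have q3d : v (3 * d) = exp (t + D) := by
    rw [map_mul, q3, qd, ← exp_add]
  -- the first factor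
  have f1 : v (y ^ 2 - 9 * d) = exp (2 * a) := by
    have e9 : v (9 * d) = exp (2 * t + D) := by
      have e : (9 : k) * d = 3 ^ 2 * d := by norm_num
      rw [e, map_mul, map_pow, q3, qd, ← exp_nsmul, ← exp_add, nsmul_eq_mul]
      norm_num
    rw [Valuation.map_sub_eq_of_lt_left v (by
      rw [e9, qy2, exp_lt_exp]
      omega), qy2]
  -- the second factor
  have f2 : v (y ^ 6 + 225 * d * y ^ 4 - 405 * d ^ 2 * y ^ 2 + 243 * d ^ 3) = exp (6 * a) := by
    have g1 : v (y ^ 6) = exp (6 * a) := by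
      rw [map_pow, qy, ← exp_nsmul, nsmul_eq_mul]
      norm_num
    have g2 : v (225 * d * y ^ 4) = exp (2 * t + D + 4 * a) := by
      have e : (225 : k) * d * y ^ 4 = 5 ^ 2 * (3 ^ 2 * d * y ^ 4) := by
        ring
      rw [e, map_mul, map_pow, q5, one_pow, one_mul, map_mul, map_mul, map_pow, map_pow, q3, qd,
        qy4, ← exp_nsmul, ← exp_add, ← exp_add, nsmul_eq_mul]
      norm_num
    have g3 : v (405 * d ^ 2 * y ^ 2) = exp (4 * t + 2 * D + 2 * a) := by
      have e : (405 : k) * d ^ 2 * y ^ 2 = 5 * (3 ^ 4 * d ^ 2 * y ^ 2) := by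
        ring
      rw [e, map_mul, q5, one_mul, map_mul, map_mul, qy2, map_pow, map_pow, q3, qd,
        ← exp_nsmul, ← exp_nsmul, ← exp_add, ← exp_add, nsmul_eq_mul, nsmul_eq_mul]
      norm_num
    have g4 : v (243 * d ^ 3) = exp (5 * t + 3 * D) := by
      have e : (243 : k) * d ^ 3 = 3 ^ 5 * d ^ 3 := by
        norm_num
      rw [e, map_mul, map_pow, map_pow, q3, qd, ← exp_nsmul, ← exp_nsmul, ← exp_add,
        nsmul_eq_mul, nsmul_eq_mul]
      norm_num
    have s1 : v (y ^ 6 + 225 * d * y ^ 4) = exp (6 * a) := by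
      rw [Valuation.map_add_eq_of_lt_left v (by
        rw [g1, g2, exp_lt_exp]
        omega), g1]
    have s2 : v (y ^ 6 + 225 * d * y ^ 4 - 405 * d ^ 2 * y ^ 2) = exp (6 * a) := by
      rw [Valuation.map_sub_eq_of_lt_left v (by
        rw [s1, g3, exp_lt_exp]
        omega), s1]
    rw [Valuation.map_add_eq_of_lt_left v (by
      rw [s2, g4, exp_lt_exp]
      omega), s2]
  -- the value of the identity
  have hval := congrArg v hy3
  have e3 : (27 : k) * x ^ 3 * (x ^ 3 + 4 * d) ^ 3 * y₃ =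
      3 ^ 3 * (y ^ 2 - d) * (y ^ 2 + 3 * d) ^ 3 * y₃ := by
    rw [e2, e1]
    norm_num
  rw [e3, map_mul v _ y₃, map_mul, map_mul, map_pow, map_pow, q3, qE, qF, map_mul, map_mul, qy,
    f1, f2] at hval
  have hy30 : y₃ ≠ 0 := by
    rintro rfl
    rw [map_zero, mul_zero] at hval
    exact (mul_ne_zero (mul_ne_zero exp_ne_zero exp_ne_zero) exp_ne_zero) hval.symm
  have qy3 : v y₃ = exp (log (v y₃)) := TmC_exp v hy30
  generalize log (v y₃) = T at qy3
  rw [qy3, ← exp_nsmul, ← exp_nsmul, ← exp_add, ← exp_add, ← exp_add, ← exp_add, ← exp_add,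
    exp_inj, nsmul_eq_mul, nsmul_eq_mul] at hval
  push_cast at hval
  have hE : E ≤ 2 * a ∨ E ≤ D := by
    have hh := Valuation.map_sub v (y ^ 2) d
    rw [qE, qy2, qd, le_max_iff, exp_le_exp, exp_le_exp] at hh
    exact hh
  have hF : F ≤ 2 * a ∨ F ≤ t + D := by
    have hh := Valuation.map_add v (y ^ 2) (3 * d)
    rw [qF, qy2, q3d, le_max_iff, exp_le_exp, exp_le_exp] at hh
    exact hh
  rw [qy, qy3, exp_lt_exp]
  omega

theorem big3 {x y : k} (h : (crv d).toAffine.Nonsingular x y) (hy : v (27 * d ^ 2) < v y ^ 4)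
    (M : ℤᵐ⁰) : ∃ n : ℕ, Big v M (3 ^ n • (Affine.Point.some x y h : (crv d).toAffine.Point)) := by
  have hy0 : y ≠ 0 := by
    rintro rfl
    rw [map_zero, zero_pow (by norm_num)] at hy
    exact absurd hy not_lt_zero
  have key : ∀ j : ℕ, ∃ n : ℕ,
      3 ^ n • (Affine.Point.some x y h : (crv d).toAffine.Point) = 0 ∨
      ∃ (x' y' : k) (h' : (crv d).toAffine.Nonsingular x' y'),
        3 ^ n • (Affine.Point.some x y h : (crv d).toAffine.Point) = Affine.Point.some x' y' h' ∧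
        v (27 * d ^ 2) < v y' ^ 4 ∧ v y * exp (j : ℤ) ≤ v y' := by
    intro j
    induction j with
    | zero =>
      refine ⟨0, Or.inr ⟨x, y, h, ?_, hy, ?_⟩⟩
      · rw [pow_zero, one_smul]
      · rw [Nat.cast_zero, exp_zero, mul_one]
    | succ j ih =>
      obtain ⟨n, hn⟩ := ih
      refine ⟨n + 1, ?_⟩
      have hs : 3 ^ (n + 1) • (Affine.Point.some x y h : (crv d).toAffine.Point) =
          (3 : ℕ) • (3 ^ n • (Affine.Point.some x y h : (crv d).toAffine.Point)) := by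
        rw [pow_succ', mul_smul]
      rcases hn with hn | ⟨x', y', h', hn, hb, hj⟩
      · left
        rw [hs, hn, smul_zero]
      · rw [hs, hn]
        rcases step3 h2 h3 hd v hv h' hb with h0 | ⟨x₂, y₂, h₂, hp, hl⟩
        · exact Or.inl h0
        · refine Or.inr ⟨x₂, y₂, h₂, hp, lt_of_lt_of_le hb (pow_le_pow_left₀ zero_le hl.le 4), ?_⟩
          have hy'0 : y' ≠ 0 := by
            rintro rfl
            rw [map_zero, zero_pow (by norm_num)] at hb
            exact absurd hb not_lt_zero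
          have hy20 : y₂ ≠ 0 := by
            rintro rfl
            rw [map_zero] at hl
            exact absurd hl not_lt_zero
          rw [TmC_exp v hy0, TmC_exp v hy'0, ← exp_add, exp_le_exp] at hj
          rw [TmC_exp v hy'0, TmC_exp v hy20, exp_lt_exp] at hl
          rw [TmC_exp v hy0, TmC_exp v hy20, ← exp_add, exp_le_exp]
          push_cast
          omega
  have hM : ∃ μ : ℤ, M ≤ exp μ := by
    by_cases hM0 : M = 0
    · exact ⟨0, by rw [hM0]; exact zero_le⟩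
    · exact ⟨log M, by rw [WithZero.exp_log hM0]⟩
  obtain ⟨μ, hμ⟩ := hM
  have hJ : ∃ j : ℕ, log (v d) < 2 * (log (v y) + j) ∧ 3 * μ < 2 * (log (v y) + j) := by
    have a1 := le_abs_self (log (v d))
    have a2 := le_abs_self μ
    have a3 := neg_abs_le (log (v y))
    have a4 := abs_nonneg (log (v d))
    have a5 := abs_nonneg μ
    refine ⟨(log (v d)).natAbs + 3 * μ.natAbs + (log (v y)).natAbs + 1, ?_, ?_⟩
    · push_cast
      omega
    · push_cast
      omega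
  obtain ⟨j, hJ1, hJ2⟩ := hJ
  obtain ⟨n, hn⟩ := key j
  refine ⟨n, ?_⟩
  rcases hn with hn | ⟨x', y', h', hn, hb, hj⟩
  · exact Or.inl hn
  · refine Or.inr ⟨x', y', h', hn, ?_⟩
    have hy'0 : y' ≠ 0 := by
      rintro rfl
      rw [map_zero, zero_pow (by norm_num)] at hb
      exact absurd hb not_lt_zero
    have hc : y' ^ 2 = x' ^ 3 + d := eq_crv h'
    have e1 : x' ^ 3 = y' ^ 2 - d := by linear_combination -hc
    rw [TmC_exp v hy0, TmC_exp v hy'0, ← exp_add, exp_le_exp] at hj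
    have qy' : v y' = exp (log (v y')) := TmC_exp v hy'0
    have qd : v d = exp (log (v d)) := TmC_exp v hd
    generalize log (v y') = b at hj qy'
    generalize log (v d) = D at hJ1 qd
    generalize log (v y) = a at hj hJ1 hJ2
    have qy2 : v (y' ^ 2) = exp (2 * b) := by
      rw [map_pow, qy', ← exp_nsmul, nsmul_eq_mul]
      norm_num
    have hb1 : D < 2 * b ∧ 3 * μ < 2 * b := by
      omega
    have q1 : v x' ^ 3 = exp (2 * b) := by
      rw [← map_pow, e1, Valuation.map_sub_eq_of_lt_left v (by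
        rw [qd, qy2, exp_lt_exp]
        exact hb1.1), qy2]
    have q2 : exp μ ^ 3 < v x' ^ 3 := by
      rw [q1, ← exp_nsmul, nsmul_eq_mul, exp_lt_exp]
      push_cast
      exact hb1.2
    exact lt_of_le_of_lt hμ (lt_of_pow_lt_pow_left₀ 3 zero_le q2)

theorem two3 {x y : k} (h : (crv d).toAffine.Nonsingular x y) (hy : v y ^ 4 < v (27 * d ^ 2)) :
    (2 : ℕ) • (Affine.Point.some x y h : (crv d).toAffine.Point) = 0 ∨
    ∃ (x₂ y₂ : k) (h₂ : (crv d).toAffine.Nonsingular x₂ y₂),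
      (2 : ℕ) • (Affine.Point.some x y h : (crv d).toAffine.Point) = Affine.Point.some x₂ y₂ h₂ ∧
      v (27 * d ^ 2) < v y₂ ^ 4 := by
  by_cases hy0 : y = 0
  · exact Or.inl (two_zero h hy0)
  obtain ⟨x₂, y₂, h₂, hP, -, hy2⟩ := two_crv h2 h hy0
  refine Or.inr ⟨x₂, y₂, h₂, hP, ?_⟩
  have q2 := TmC_two v hv
  have q3 : v 3 = exp (log (v 3)) := TmC_exp v h3
  have qd : v d = exp (log (v d)) := TmC_exp v hd
  have qy : v y = exp (log (v y)) := TmC_exp v hy0
  generalize log (v 3) = t at q3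
  generalize log (v d) = D at qd
  generalize log (v y) = a at qy
  have ht : t < 0 := by
    rw [q3, ← exp_zero, exp_lt_exp] at hv
    exact hv
  have qy4 : v y ^ 4 = exp (4 * a) := by
    rw [qy, ← exp_nsmul, nsmul_eq_mul]
    norm_num
  have q27 : v (27 * d ^ 2) = exp (3 * t + 2 * D) := by
    have e : (27 : k) * d ^ 2 = 3 ^ 3 * d ^ 2 := by norm_num
    rw [e, map_mul, map_pow, map_pow, q3, qd, ← exp_nsmul, ← exp_nsmul, ← exp_add, nsmul_eq_mul,
      nsmul_eq_mul]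
    norm_num
  have hlt : 4 * a < 3 * t + 2 * D := by
    rw [q27, qy4, exp_lt_exp] at hy
    exact hy
  have qy2 : v (y ^ 2) = exp (2 * a) := by
    rw [map_pow, qy, ← exp_nsmul, nsmul_eq_mul]
    norm_num
  have q18 : v (18 * d * y ^ 2) = exp (2 * t + D + 2 * a) := by
    have e : (18 : k) * d * y ^ 2 = 2 * (3 ^ 2 * d * y ^ 2) := by
      ring
    rw [e, map_mul, q2, one_mul, map_mul, map_mul, qy2, map_pow, q3, qd,
      ← exp_nsmul, ← exp_add, ← exp_add, nsmul_eq_mul]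
    norm_num
  have s1 : v (y ^ 4 + 18 * d * y ^ 2) < exp (3 * t + 2 * D) := by
    apply Valuation.map_add_lt
    · rw [map_pow, qy4, exp_lt_exp]
      exact hlt
    · rw [q18, exp_lt_exp]
      omega
  have s2 : v (y ^ 4 + 18 * d * y ^ 2 - 27 * d ^ 2) = exp (3 * t + 2 * D) := by
    rw [Valuation.map_sub_eq_of_lt_right v (by
      rw [q27]
      exact s1), q27]
  have hval := congrArg v hy2
  have e3 : (8 : k) * y ^ 3 * y₂ = 2 ^ 3 * y ^ 3 * y₂ := by norm_num
  rw [e3, map_mul, map_mul, map_pow, map_pow, q2, one_pow, one_mul, qy, s2] at hval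
  have hy20 : y₂ ≠ 0 := by
    rintro rfl
    rw [map_zero, mul_zero] at hval
    exact exp_ne_zero hval.symm
  have qy3 : v y₂ = exp (log (v y₂)) := TmC_exp v hy20
  generalize log (v y₂) = T at qy3
  rw [qy3, ← exp_nsmul, ← exp_add, exp_inj, nsmul_eq_mul] at hval
  push_cast at hval
  rw [q27, qy3, ← exp_nsmul, nsmul_eq_mul, exp_lt_exp]
  push_cast
  omega

theorem tri3 (P : (crv d).toAffine.Point) :
    (∀ M : ℤᵐ⁰, ∃ n m : ℕ, (m = 1 ∨ m = 2) ∧ Big v M ((3 ^ n * m) • P)) ∨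
      ∃ x y : k, y ^ 2 = x ^ 3 + d ∧ v y ^ 4 = v (27 * d ^ 2) := by
  rcases P with _ | ⟨x, y, h⟩
  · left
    intro M
    refine ⟨0, 1, Or.inl rfl, Or.inl ?_⟩
    exact smul_zero _
  · rcases lt_trichotomy (v y ^ 4) (v (27 * d ^ 2)) with hlt | heq | hgt
    · left
      intro M
      rcases two3 h2 h3 hd v hv h hlt with h0 | ⟨x₂, y₂, h₂, hP, hb⟩
      · refine ⟨0, 2, Or.inr rfl, Or.inl ?_⟩
        rw [pow_zero, one_mul, h0]
      · obtain ⟨n, hn⟩ := big3 h2 h3 hd v hv h₂ hb M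
        refine ⟨n, 2, Or.inr rfl, ?_⟩
        rw [mul_smul, hP]
        exact hn
    · right
      exact ⟨x, y, eq_crv h, heq⟩
    · left
      intro M
      obtain ⟨n, hn⟩ := big3 h2 h3 hd v hv h hgt M
      refine ⟨n, 1, Or.inl rfl, ?_⟩
      rw [mul_one]
      exact hn

end

end Pool.Agent.Lib.MP_1a91b9_ntX.PL
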