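import Pool.Agent.Lib.MP_1a91b9_ntX.PL.TmA

/-!
# Tamagawa numbers of `y² = x³ + d`: residue characteristic prime to `6`

JOB TmD. `v 2 = v 3 = 1`.

PROOF. Write `|x| = v x`. `Far P` means `P = 0` or `|d| < |x|³`. Let `P = (x, y)` be not far: `|x|³ ≤ |d|`, so `|y|² = |x³ + d| ≤ |d|`.
 * `|x|³ < |d|`: then `|y|² = |d|`. If `x (x³ + 4 d) = 0` then `3 P = 0`. Otherwise `|x³ + 4 d| = |d|`, the numerator of `x₃` in `three_crv` has value `|64 d³| = |d|³`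
   (the other terms are smaller), so `|x|² |d|² |x₃| = |d|³`, `|x|² |x₃| = |d|`, `|x|⁶ |x₃|³ = |d|³ > |d| |x|⁶`, so `|x₃|³ > |d|`: `3 P` is far.
 * `|y|² < |d|`: then `|x|³ = |d|` (`x³ = y² - d`). If `y = 0` then `2 P = 0`. Otherwise by `two_crv` `|y|³ |y₂| = |27 d²| = |d|²` (the terms `y⁴`, `18 d y²` are smaller), so
   `|y|⁶ |y₂|² = |d|⁴ > |d| |y|⁶`, `|y₂|² > |d|`, and `|x₂|³ = |y₂² - d| = |y₂|² > |d|`: `2 P` is far. (Or: `|x₂| |y|² = |x| |x³ - 8 d|`: not so good, use `y₂`.)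
 * `|x|³ = |d|` and `|y|² = |d|`: the last case.
-/

set_option autoImplicit false

namespace Pool.Agent.Lib.MP_1a91b9_ntX.PL

open WeierstrassCurve WithZero Pool.Agent.Lib.MP_1a91b9_ntX.LF

/-- the point at infinity and the points with `|d| < |x|³` -/
def Far {k : Type*} [Field k] (v : Valuation k ℤᵐ⁰) {d : k} (P : (crv d).toAffine.Point) : Prop :=
  P = 0 ∨ ∃ (x y : k) (h : (crv d).toAffine.Nonsingular x y), P = Affine.Point.some x y h ∧
    v d < v x ^ 3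

private theorem TmD_ordA {G : Type*} [LinearOrderedCommGroupWithZero G] {a c e : G}
    (he : 0 < e) (ha : a ^ 3 < e) (h : a ^ 2 * c = e) : e < c ^ 3 := by
  by_contra hc
  rw [not_lt] at hc
  have h1 : a ^ 6 * c ^ 3 = e ^ 3 := by
    rw [← h, mul_pow, ← pow_mul]
  have h2 : a ^ 6 < e ^ 2 := by
    have h3 : (a ^ 3) ^ 2 < e ^ 2 := pow_lt_pow_left₀ ha zero_le two_ne_zero
    rwa [← pow_mul] at h3
  have h4 : a ^ 6 * c ^ 3 ≤ a ^ 6 * e := mul_le_mul_right hc _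
  have h5 : a ^ 6 * e < e ^ 2 * e := mul_lt_mul_of_pos_right h2 he
  have h6 : e ^ 3 < e ^ 2 * e := by
    rw [← h1]
    exact lt_of_le_of_lt h4 h5
  rw [← pow_succ] at h6
  exact lt_irrefl _ h6

private theorem TmD_ordB {G : Type*} [LinearOrderedCommGroupWithZero G] {b c e : G}
    (he : 0 < e) (hb : b ^ 2 < e) (h : b ^ 3 * c = e ^ 2) : e < c ^ 2 := by
  by_contra hc
  rw [not_lt] at hc
  have h1 : b ^ 6 * c ^ 2 = e ^ 4 := by
    have h0 : (b ^ 3 * c) ^ 2 = (e ^ 2) ^ 2 := by rw [h]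
    rwa [mul_pow, ← pow_mul, ← pow_mul] at h0
  have h2 : b ^ 6 < e ^ 3 := by
    have h3 : (b ^ 2) ^ 3 < e ^ 3 := pow_lt_pow_left₀ hb zero_le three_ne_zero
    rwa [← pow_mul] at h3
  have h4 : b ^ 6 * c ^ 2 ≤ b ^ 6 * e := mul_le_mul_right hc _
  have h5 : b ^ 6 * e < e ^ 3 * e := mul_lt_mul_of_pos_right h2 he
  have h6 : e ^ 4 < e ^ 3 * e := by
    rw [← h1]
    exact lt_of_le_of_lt h4 h5
  rw [← pow_succ] at h6
  exact lt_irrefl _ h6

private theorem TmD_v1 {k : Type*} [Field k] (v : Valuation k ℤᵐ⁰) (hv2 : v 2 = 1) (hv3 : v 3 = 1)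
    (i j : ℕ) : v ((2 : k) ^ i * 3 ^ j) = 1 := by
  rw [map_mul, map_pow, map_pow, hv2, hv3, one_pow, one_pow, mul_one]

private theorem TmD_caseA {k : Type*} [Field k] {d : k} (hd : d ≠ 0) (v : Valuation k ℤᵐ⁰)
    (hv2 : v 2 = 1) (hv3 : v 3 = 1) {x x3 : k} (hx : v x ^ 3 < v d)
    (h : 9 * x ^ 2 * (x ^ 3 + 4 * d) ^ 2 * x3 =
        x ^ 9 - 96 * d * x ^ 6 + 48 * d ^ 2 * x ^ 3 + 64 * d ^ 3) : v d < v x3 ^ 3 := by
  have hd0 : 0 < v d := zero_lt_iff.2 ((Valuation.ne_zero_iff v).2 hd)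
  have v4 : v 4 = 1 := by
    have := TmD_v1 v hv2 hv3 2 0
    norm_num at this
    exact this
  have v9 : v 9 = 1 := by
    have := TmD_v1 v hv2 hv3 0 2
    norm_num at this
    exact this
  have v96 : v 96 = 1 := by
    have := TmD_v1 v hv2 hv3 5 1
    norm_num at this
    exact this
  have v48 : v 48 = 1 := by
    have := TmD_v1 v hv2 hv3 4 1
    norm_num at this
    exact this
  have v64 : v 64 = 1 := by
    have := TmD_v1 v hv2 hv3 6 0
    norm_num at this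
    exact this
  have e1 : v (x ^ 3 + 4 * d) = v d := by
    have h1 : v (4 * d) = v d := by rw [map_mul, v4, one_mul]
    rw [Valuation.map_add_eq_of_lt_right v (by rw [h1, map_pow]; exact hx), h1]
  have hx3 : v (x ^ 3) < v d := by rw [map_pow]; exact hx
  have e2 : v (64 * d ^ 3) = v d ^ 3 := by rw [map_mul, v64, one_mul, map_pow]
  have l1 : v (x ^ 9) < v d ^ 3 := by
    rw [show x ^ 9 = (x ^ 3) ^ 3 by ring, map_pow]
    exact pow_lt_pow_left₀ hx3 zero_le three_ne_zero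
  have l2 : v (96 * d * x ^ 6) < v d ^ 3 := by
    rw [show 96 * d * x ^ 6 = 96 * (d * (x ^ 3) ^ 2) by ring, map_mul, v96, one_mul, map_mul,
      map_pow v (x ^ 3) 2, pow_succ' (v d) 2]
    exact mul_lt_mul_of_pos_left (pow_lt_pow_left₀ hx3 zero_le two_ne_zero) hd0
  have l3 : v (48 * d ^ 2 * x ^ 3) < v d ^ 3 := by
    rw [show 48 * d ^ 2 * x ^ 3 = 48 * (d ^ 2 * x ^ 3) by ring, map_mul, v48, one_mul, map_mul,
      map_pow v d 2, pow_succ (v d) 2]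
    exact mul_lt_mul_of_pos_left hx3 (pow_pos hd0 2)
  have l4 : v (x ^ 9 - 96 * d * x ^ 6 + 48 * d ^ 2 * x ^ 3) < v d ^ 3 :=
    Valuation.map_add_lt v (Valuation.map_sub_lt v l1 l2) l3
  have e3 : v (x ^ 9 - 96 * d * x ^ 6 + 48 * d ^ 2 * x ^ 3 + 64 * d ^ 3) = v d ^ 3 := by
    rw [Valuation.map_add_eq_of_lt_right v (by rw [e2]; exact l4), e2]
  have e4 : v x ^ 2 * v d ^ 2 * v x3 = v d ^ 3 := by
    rw [← e3, ← h, map_mul, map_mul, map_mul, v9, one_mul, map_pow, map_pow, e1]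
  have e5 : v x ^ 2 * v x3 = v d := by
    have h2 : v d ^ 2 ≠ 0 := pow_ne_zero 2 hd0.ne'
    apply mul_left_cancel₀ h2
    rw [← pow_succ, ← e4]
    rw [← mul_assoc, mul_comm (v d ^ 2)]
  exact TmD_ordA hd0 hx e5

private theorem TmD_caseB {k : Type*} [Field k] {d : k} (hd : d ≠ 0) (v : Valuation k ℤᵐ⁰)
    (hv2 : v 2 = 1) (hv3 : v 3 = 1) {y x2 y2 : k} (hy : v y ^ 2 < v d)
    (h : 8 * y ^ 3 * y2 = y ^ 4 + 18 * d * y ^ 2 - 27 * d ^ 2) (he : y2 ^ 2 = x2 ^ 3 + d) :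
    v d < v x2 ^ 3 := by
  have hd0 : 0 < v d := zero_lt_iff.2 ((Valuation.ne_zero_iff v).2 hd)
  have v8 : v 8 = 1 := by
    have := TmD_v1 v hv2 hv3 3 0
    norm_num at this
    exact this
  have v18 : v 18 = 1 := by
    have := TmD_v1 v hv2 hv3 1 2
    norm_num at this
    exact this
  have v27 : v 27 = 1 := by
    have := TmD_v1 v hv2 hv3 0 3
    norm_num at this
    exact this
  have hy2 : v (y ^ 2) < v d := by rw [map_pow]; exact hy
  have e2 : v (27 * d ^ 2) = v d ^ 2 := by rw [map_mul, v27, one_mul, map_pow]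
  have l1 : v (y ^ 4) < v d ^ 2 := by
    rw [show y ^ 4 = (y ^ 2) ^ 2 by ring, map_pow]
    exact pow_lt_pow_left₀ hy2 zero_le two_ne_zero
  have l2 : v (18 * d * y ^ 2) < v d ^ 2 := by
    rw [mul_assoc, map_mul, v18, one_mul, map_mul, sq (v d)]
    exact mul_lt_mul_of_pos_left hy2 hd0
  have l3 : v (y ^ 4 + 18 * d * y ^ 2) < v d ^ 2 := Valuation.map_add_lt v l1 l2
  have e3 : v (y ^ 4 + 18 * d * y ^ 2 - 27 * d ^ 2) = v d ^ 2 := by
    rw [Valuation.map_sub_eq_of_lt_right v (by rw [e2]; exact l3), e2]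
  have e4 : v y ^ 3 * v y2 = v d ^ 2 := by
    rw [← e3, ← h, map_mul, map_mul, v8, one_mul, map_pow]
  have e5 : v d < v y2 ^ 2 := TmD_ordB hd0 hy e4
  have e6 : v x2 ^ 3 = v y2 ^ 2 := by
    rw [← map_pow, ← map_pow, show x2 ^ 3 = y2 ^ 2 - d by rw [he]; ring]
    exact Valuation.map_sub_eq_of_lt_left v (by rw [map_pow]; exact e5)
  rw [e6]
  exact e5

theorem tri6 {k : Type*} [Field k] [DecidableEq k] (h2 : (2 : k) ≠ 0) (h3 : (3 : k) ≠ 0) {d : k}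
    (hd : d ≠ 0) (v : Valuation k ℤᵐ⁰) (hv2 : v 2 = 1) (hv3 : v 3 = 1)
    (P : (crv d).toAffine.Point) :
    (∃ m : ℕ, (m = 1 ∨ m = 2 ∨ m = 3) ∧ Far v (m • P)) ∨
      ∃ x y : k, y ^ 2 = x ^ 3 + d ∧ v x ^ 3 = v d ∧ v y ^ 2 = v d := by
  have hd0 : 0 < v d := zero_lt_iff.2 ((Valuation.ne_zero_iff v).2 hd)
  rcases P with _ | ⟨x, y, h⟩
  · exact Or.inl ⟨1, Or.inl rfl, Or.inl (smul_zero 1)⟩
  · have he : y ^ 2 = x ^ 3 + d := eq_crv h
    rcases lt_trichotomy (v d) (v x ^ 3) with h1 | h1 | h1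
    · refine Or.inl ⟨1, Or.inl rfl, Or.inr ⟨x, y, h, one_smul _ _, h1⟩⟩
    · have hy : v (y ^ 2) ≤ v d := by
        rw [he]
        exact Valuation.map_add_le v (by rw [map_pow]; exact h1.ge) le_rfl
      rcases lt_or_eq_of_le hy with h4 | h4
      · by_cases hy0 : y = 0
        · exact Or.inl ⟨2, Or.inr (Or.inl rfl), Or.inl (two_zero h hy0)⟩
        · obtain ⟨x2, y2, hn, hP, -, hb⟩ := two_crv h2 h hy0
          refine Or.inl ⟨2, Or.inr (Or.inl rfl), Or.inr ⟨x2, y2, hn, hP, ?_⟩⟩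
          exact TmD_caseB hd v hv2 hv3 (by rw [← map_pow]; exact h4) hb (eq_crv hn)
      · exact Or.inr ⟨x, y, he, h1.symm, by rw [← map_pow]; exact h4⟩
    · by_cases hx0 : x * (x ^ 3 + 4 * d) = 0
      · exact Or.inl ⟨3, Or.inr (Or.inr rfl), Or.inl (three_zero h2 h3 hd h hx0)⟩
      · obtain ⟨x3, y3, hn, hP, ha, -⟩ := three_crv h2 h3 h hx0
        refine Or.inl ⟨3, Or.inr (Or.inr rfl), Or.inr ⟨x3, y3, hn, hP, ?_⟩⟩
        exact TmD_caseA hd v hv2 hv3 h1 ha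

end Pool.Agent.Lib.MP_1a91b9_ntX.PL
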