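import Pool.Agent.Lib.MP_1a91b9_ntX.LF.Defs
import Pool.Agent.Lib.MP_1a91b9_ntT.CT.La
import Pool.Agent.Lib.MP_1a91b9_ntT.CT.Lb

/-!
# Tamagawa numbers of `y² = x³ + d`: the cases of good reduction

JOB TmE. `k = v.adicCompletion N`.

PROOF. Write `|x| = Valued.v x`. In `good2` `|2| < 1`, `|3| = 1`, `y² = x³ + d`, `|x|³ = |4 d|`. Then `|y|² = |x³ + d| = |d|` (`|x|³ = |4 d| < |d|`), so `x ≠ 0`, `y ≠ 0`. Put
`C₀ = ⟨2 y / x, 0, 0, y⟩` (`u = 2 y / x`, `r = s = 0`, `t = y`; `Units.mk0`). With `w = y / x`: `C₀ • crv d = ⟨0, 0, y / (4 w³), 0, -x³ / (64 w⁶)⟩` (`a₃ = 2 t / u³`,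
`a₆ = (d - t²) / u⁶ = -x³ / u⁶`); `|w|³ = |y|³ / |x|³ = |y|³ / (|4| |y|²) = |y| / |4|`, so `|a₃| = 1`; `|a₆| = |x|³ / (|64| |w|⁶) = |4 d| / (|64| |y|² / |16|) = |4 d| / (|4| |d|) = 1`.
So both are integral (`⟨_, proof⟩ : v.adicCompletionIntegers N`), and `Δ (C₀ • crv d) = u⁻¹ ^ 12 * Δ (crv d)` (`variableChange_Δ`, `crv_Δ`): `|432 d²| / |u|^12 = |16 d²| / (|2|^12 |w|^12)`,
`|w|^12 = |y|⁴ / |4|⁴ = |d|² / |2|^8`: the value is `|2|^4 |d|² |2|^8 / (|2|^12 |d|²) = 1`.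
`good3`: `|3| < 1`, `|2| = 1`, `|y|⁴ = |27 d²|`. Then `|y|² < |d|` (square), so `|x|³ = |y² - d| = |d|`, `x ≠ 0`, `y ≠ 0`. `u = 3 x² / y`, `r = x`, `s = t = 0`:
`C₀ • crv d = ⟨0, 3 x / u², 0, 3 x² / u⁴, y² / u⁶⟩` (`a₆ = (d + r³) / u⁶ = y² / u⁶`). `|u|⁴ = |3 x²|⁴ / |y|⁴`, `|y|⁴ = |27 d²| = |27| |x|⁶ = |3 x²|³`, so `|u|⁴ = |3 x²|`, hence
`|a₄| = 1`, `|a₂|² = |9 x²| / |3 x²| = |3| < 1`, `|y|⁴ = (|u|⁴)³ = |u|^12` so `|y| = |u|³`, `|a₆| = 1`; `|Δ| = |432 d²| / |u|^12 = |27 d²| / |y|⁴ = 1`.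
`good6`: `|2| = |3| = 1`, `|x|³ = |d| = |y|²`: `u = y / x`, `r = s = t = 0`: `C₀ • crv d = crv (d / u⁶)`, `|u|⁶ = |y|⁶ / |x|⁶ = |d|³ / |d|² = |d|`, `|a₆| = 1`, `|Δ| = 1`.
(`good_ns`) `C • W₀ = (C * C₀⁻¹) • (C₀ • W₀)`; by `CT.unit_min` the discriminant of `C • W₀` is a unit, by `CT.min_int` it is integral, so `CT.ns_unit`.
Model: `MP_1a91b9_ntT/PL/TamB.lean` (`tb_model`).
-/

set_option autoImplicit false

namespace Pool.Agent.Lib.MP_1a91b9_ntX.PL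

open NumberField IsDedekindDomain WeierstrassCurve WithZero Pool.Agent.Lib.MP_1a91b9_ntX.LF
open Pool.Agent.Lib.MP_1a91b9_ntT.CT (ns)
open scoped Classical

variable {N : Type*} [Field N] [NumberField N]

/-- there is an integral model with unit discriminant -/
def GoodAt (v : HeightOneSpectrum (𝓞 N)) (W₀ : WeierstrassCurve (v.adicCompletion N)) : Prop :=
  ∃ (C₀ : VariableChange (v.adicCompletion N)) (I : WeierstrassCurve (v.adicCompletionIntegers N)),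
    C₀ • W₀ = I.baseChange (v.adicCompletion N) ∧ Valued.v (C₀ • W₀).Δ = (1 : ℤᵐ⁰)

private theorem TmE_model (v : HeightOneSpectrum (𝓞 N)) {d u r t : v.adicCompletion N} (hu : u ≠ 0)
    (b2 : Valued.v (3 * r / u ^ 2) ≤ (1 : ℤᵐ⁰)) (b3 : Valued.v (2 * t / u ^ 3) ≤ (1 : ℤᵐ⁰))
    (b4 : Valued.v (3 * r ^ 2 / u ^ 4) ≤ (1 : ℤᵐ⁰))
    (b6 : Valued.v ((d + r ^ 3 - t ^ 2) / u ^ 6) ≤ (1 : ℤᵐ⁰))
    (hΔ : (Valued.v (432 * d ^ 2) : ℤᵐ⁰) = Valued.v u ^ 12) : GoodAt v (crv d) := by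
  have hin : (((Units.mk0 u hu)⁻¹ : (v.adicCompletion N)ˣ) : v.adicCompletion N) = u⁻¹ := by
    rw [Units.val_inv_eq_inv_val, Units.val_mk0]
  refine ⟨⟨Units.mk0 u hu, r, 0, t⟩, ⟨0, ⟨_, b2⟩, ⟨_, b3⟩, ⟨_, b4⟩, ⟨_, b6⟩⟩, ?_, ?_⟩
  · refine WeierstrassCurve.ext ?_ ?_ ?_ ?_ ?_
    · rw [variableChange_a₁, hin]
      simp [crv, WeierstrassCurve.baseChange]
    · rw [variableChange_a₂, hin]
      simp only [crv, WeierstrassCurve.baseChange, WeierstrassCurve.map_a₂]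
      change _ = 3 * r / u ^ 2
      field_simp
      ring
    · rw [variableChange_a₃, hin]
      simp only [crv, WeierstrassCurve.baseChange, WeierstrassCurve.map_a₃]
      change _ = 2 * t / u ^ 3
      field_simp
      ring
    · rw [variableChange_a₄, hin]
      simp only [crv, WeierstrassCurve.baseChange, WeierstrassCurve.map_a₄]
      change _ = 3 * r ^ 2 / u ^ 4
      field_simp
      ring
    · rw [variableChange_a₆, hin]
      simp only [crv, WeierstrassCurve.baseChange, WeierstrassCurve.map_a₆]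
      change _ = (d + r ^ 3 - t ^ 2) / u ^ 6
      field_simp
      ring
  · rw [variableChange_Δ, crv_Δ, map_mul, map_pow, Valuation.map_neg, hΔ, hin, map_inv₀, ← mul_pow,
      inv_mul_cancel₀ ((Valuation.ne_zero_iff _).2 hu), one_pow]

private theorem TmE_two (v : HeightOneSpectrum (𝓞 N)) : (2 : v.adicCompletion N) ≠ 0 := by
  have h : algebraMap N (v.adicCompletion N) 2 ≠ 0 := (map_ne_zero _).2 two_ne_zero
  rwa [map_ofNat] at h

private theorem TmE_three (v : HeightOneSpectrum (𝓞 N)) : (3 : v.adicCompletion N) ≠ 0 := by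
  have h : algebraMap N (v.adicCompletion N) 3 ≠ 0 := (map_ne_zero _).2 three_ne_zero
  rwa [map_ofNat] at h

section
variable (v : HeightOneSpectrum (𝓞 N)) {d x y : v.adicCompletion N} (hd : d ≠ 0)
  (h : y ^ 2 = x ^ 3 + d)
include hd h

theorem good2 (h2 : Valued.v (2 : v.adicCompletion N) < (1 : ℤᵐ⁰))
    (hx : Valued.v x ^ 3 = (Valued.v (4 * d) : ℤᵐ⁰)) : GoodAt v (crv d) := by
  have hd0 : 0 < (Valued.v d : ℤᵐ⁰) := zero_lt_iff.2 ((Valuation.ne_zero_iff _).2 hd)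
  have h20 := TmE_two v
  have h40 : (4 : v.adicCompletion N) ≠ 0 := by
    have e : (4 : v.adicCompletion N) = 2 * 2 := by norm_num
    rw [e]
    exact mul_ne_zero h20 h20
  have h3 : (Valued.v (3 : v.adicCompletion N) : ℤᵐ⁰) = 1 := by
    have e : (3 : v.adicCompletion N) = 1 + 2 := by norm_num
    rw [e, Valuation.map_add_eq_of_lt_left _ (by rwa [map_one]), map_one]
  have h4 : (Valued.v (4 : v.adicCompletion N) : ℤᵐ⁰) < 1 := by
    have e : (4 : v.adicCompletion N) = 2 ^ 2 := by norm_num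
    rw [e, map_pow]
    exact pow_lt_one₀ zero_le h2 two_ne_zero
  have hxd : (Valued.v (x ^ 3) : ℤᵐ⁰) < Valued.v d := by
    rw [map_pow, hx, map_mul]
    exact mul_lt_of_lt_one_left hd0 h4
  have hy2 : (Valued.v (y ^ 2) : ℤᵐ⁰) = Valued.v d := by
    rw [h, Valuation.map_add_eq_of_lt_right _ hxd]
  have hx0 : x ≠ 0 := by
    rintro rfl
    rw [map_zero, zero_pow three_ne_zero] at hx
    exact (Valuation.ne_zero_iff _).2 (mul_ne_zero h40 hd) hx.symm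
  have hy0 : y ≠ 0 := by
    rintro rfl
    rw [zero_pow two_ne_zero, map_zero] at hy2
    exact hd0.ne hy2
  have hq : (Valued.v (x ^ 3 / (4 * y ^ 2)) : ℤᵐ⁰) = 1 := by
    rw [map_div₀, map_pow, hx, map_mul, map_mul, hy2]
    exact div_self (mul_ne_zero ((Valuation.ne_zero_iff _).2 h40) hd0.ne')
  refine TmE_model v (u := 2 * y / x) (r := 0) (t := y)
    (div_ne_zero (mul_ne_zero h20 hy0) hx0) ?_ ?_ ?_ ?_ ?_
  · rw [mul_zero, zero_div, map_zero]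
    exact zero_le
  · have e : 2 * y / (2 * y / x) ^ 3 = x ^ 3 / (4 * y ^ 2) := by
      field_simp
      norm_num
    rw [e, hq]
  · rw [zero_pow two_ne_zero, mul_zero, zero_div, map_zero]
    exact zero_le
  · have e : (d + 0 ^ 3 - y ^ 2) / (2 * y / x) ^ 6 = -(x ^ 3 / (4 * y ^ 2)) ^ 3 := by
      have e1 : d + 0 ^ 3 - y ^ 2 = -x ^ 3 := by rw [h]; ring
      rw [e1]
      field_simp
      ring
    rw [e, Valuation.map_neg, map_pow, hq, one_pow]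
  · have e : (2 * y / x) ^ 12 = 2 ^ 4 * (y ^ 2) ^ 2 / (x ^ 3 / (4 * y ^ 2)) ^ 4 := by
      field_simp
      ring
    have e2 : (432 : v.adicCompletion N) * d ^ 2 = 2 ^ 4 * 3 ^ 3 * d ^ 2 := by norm_num
    rw [← map_pow, e, e2, map_div₀, map_pow _ (x ^ 3 / (4 * y ^ 2)), hq, one_pow, div_one, map_mul,
      map_mul, map_mul, map_pow _ (3 : v.adicCompletion N), h3, one_pow, mul_one, map_pow _ (y ^ 2), hy2,
      map_pow _ d]

theorem good3 (h3 : Valued.v (3 : v.adicCompletion N) < (1 : ℤᵐ⁰))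
    (hy : Valued.v y ^ 4 = (Valued.v (27 * d ^ 2) : ℤᵐ⁰)) : GoodAt v (crv d) := by
  have hd0 : 0 < (Valued.v d : ℤᵐ⁰) := zero_lt_iff.2 ((Valuation.ne_zero_iff _).2 hd)
  have h30 := TmE_three v
  have h270 : (27 : v.adicCompletion N) ≠ 0 := by
    have e : (27 : v.adicCompletion N) = 3 ^ 3 := by norm_num
    rw [e]
    exact pow_ne_zero 3 h30
  have h2 : (Valued.v (2 : v.adicCompletion N) : ℤᵐ⁰) = 1 := by
    have e : (2 : v.adicCompletion N) = 3 - 1 := by norm_num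
    rw [e, Valuation.map_sub_eq_of_lt_right _ (by rwa [map_one]), map_one]
  have h27 : (Valued.v (27 : v.adicCompletion N) : ℤᵐ⁰) < 1 := by
    have e : (27 : v.adicCompletion N) = 3 ^ 3 := by norm_num
    rw [e, map_pow]
    exact pow_lt_one₀ zero_le h3 three_ne_zero
  have hyd : (Valued.v (y ^ 2) : ℤᵐ⁰) < Valued.v d := by
    refine lt_of_pow_lt_pow_left₀ 2 zero_le ?_
    rw [map_pow, ← pow_mul, hy, map_mul, map_pow]
    exact mul_lt_of_lt_one_left (pow_pos hd0 2) h27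
  have hx3 : (Valued.v (x ^ 3) : ℤᵐ⁰) = Valued.v d := by
    have e : x ^ 3 = y ^ 2 - d := by rw [h]; ring
    rw [e, Valuation.map_sub_eq_of_lt_right _ hyd]
  have hx0 : x ≠ 0 := by
    rintro rfl
    rw [zero_pow three_ne_zero, map_zero] at hx3
    exact hd0.ne hx3
  have hy0 : y ≠ 0 := by
    rintro rfl
    rw [map_zero, zero_pow four_ne_zero] at hy
    exact (Valuation.ne_zero_iff _).2 (mul_ne_zero h270 (pow_ne_zero 2 hd)) hy.symm
  have h27x : (Valued.v (27 * x ^ 6) : ℤᵐ⁰) = Valued.v (27 * d ^ 2) := by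
    have e : 27 * x ^ 6 = 27 * (x ^ 3) ^ 2 := by ring
    rw [e, map_mul, map_mul, map_pow _ (x ^ 3), hx3, map_pow]
  have hq : (Valued.v (y ^ 4 / (27 * x ^ 6)) : ℤᵐ⁰) = 1 := by
    rw [map_div₀, map_pow, hy, h27x]
    exact div_self ((Valuation.ne_zero_iff _).2 (mul_ne_zero h270 (pow_ne_zero 2 hd)))
  refine TmE_model v (u := 3 * x ^ 2 / y) (r := x) (t := 0)
    (div_ne_zero (mul_ne_zero h30 (pow_ne_zero 2 hx0)) hy0) ?_ ?_ ?_ ?_ ?_
  · refine le_of_pow_le_pow_left₀ two_ne_zero zero_le ?_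
    have e : (3 * x / (3 * x ^ 2 / y) ^ 2) ^ 2 = 3 * (y ^ 4 / (27 * x ^ 6)) := by
      field_simp
      ring
    rw [← map_pow, e, map_mul, hq, mul_one, one_pow]
    exact h3.le
  · rw [mul_zero, zero_div, map_zero]
    exact zero_le
  · have e : 3 * x ^ 2 / (3 * x ^ 2 / y) ^ 4 = y ^ 4 / (27 * x ^ 6) := by
      field_simp
      norm_num
    rw [e, hq]
  · have e : (d + x ^ 3 - 0 ^ 2) / (3 * x ^ 2 / y) ^ 6 = (y ^ 4 / (27 * x ^ 6)) ^ 2 := by
      have e1 : d + x ^ 3 - 0 ^ 2 = y ^ 2 := by rw [h]; ring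
      rw [e1]
      field_simp
      ring
    rw [e, map_pow, hq, one_pow]
  · have e : (3 * x ^ 2 / y) ^ 12 = 27 * x ^ 6 / (y ^ 4 / (27 * x ^ 6)) ^ 3 := by
      field_simp
      ring
    have e2 : (432 : v.adicCompletion N) * d ^ 2 = 2 ^ 4 * (27 * d ^ 2) := by ring
    rw [← map_pow, e, e2, map_div₀, map_pow _ (y ^ 4 / (27 * x ^ 6)), hq, one_pow, div_one, map_mul _ (2 ^ 4),
      map_pow _ (2 : v.adicCompletion N), h2, one_pow, one_mul, h27x]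

theorem good6 (h2 : Valued.v (2 : v.adicCompletion N) = (1 : ℤᵐ⁰))
    (h3 : Valued.v (3 : v.adicCompletion N) = (1 : ℤᵐ⁰))
    (hx : Valued.v x ^ 3 = (Valued.v d : ℤᵐ⁰)) (hy : Valued.v y ^ 2 = (Valued.v d : ℤᵐ⁰)) :
    GoodAt v (crv d) := by
  have hd0 : (Valued.v d : ℤᵐ⁰) ≠ 0 := (Valuation.ne_zero_iff _).2 hd
  have hx0 : x ≠ 0 := by
    rintro rfl
    rw [map_zero, zero_pow three_ne_zero] at hx
    exact hd0 hx.symm
  have hy0 : y ≠ 0 := by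
    rintro rfl
    rw [map_zero, zero_pow two_ne_zero] at hy
    exact hd0 hy.symm
  have hq : (Valued.v (x ^ 3 / y ^ 2) : ℤᵐ⁰) = 1 := by
    rw [map_div₀, map_pow, hx, map_pow, hy]
    exact div_self hd0
  refine TmE_model v (u := y / x) (r := 0) (t := 0) (div_ne_zero hy0 hx0) ?_ ?_ ?_ ?_ ?_
  · rw [mul_zero, zero_div, map_zero]
    exact zero_le
  · rw [mul_zero, zero_div, map_zero]
    exact zero_le
  · rw [zero_pow two_ne_zero, mul_zero, zero_div, map_zero]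
    exact zero_le
  · have e : (d + 0 ^ 3 - 0 ^ 2) / (y / x) ^ 6 = d / y ^ 2 * (x ^ 3 / y ^ 2) ^ 2 := by
      field_simp
      ring
    rw [e, map_mul, map_pow, hq, one_pow, mul_one, map_div₀, map_pow, hy, div_self hd0]
  · have e : (y / x) ^ 12 = (y ^ 2) ^ 2 / (x ^ 3 / y ^ 2) ^ 4 := by
      field_simp
    have e2 : (432 : v.adicCompletion N) * d ^ 2 = 2 ^ 4 * 3 ^ 3 * d ^ 2 := by norm_num
    rw [← map_pow, e, e2, map_div₀, map_pow _ (x ^ 3 / y ^ 2), hq, one_pow, div_one, map_mul, map_mul,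
      map_pow _ (2 : v.adicCompletion N), map_pow _ (3 : v.adicCompletion N), h2, h3, one_pow, one_pow,
      one_mul, one_mul, map_pow _ (y ^ 2), map_pow _ y, hy, map_pow]

end

theorem good_ns (v : HeightOneSpectrum (𝓞 N)) {W₀ : WeierstrassCurve (v.adicCompletion N)}
    (h : GoodAt v W₀) (C : VariableChange (v.adicCompletion N))
    (hm : IsMinimal (v.adicCompletionIntegers N) (C • W₀)) : ns (C • W₀) = ⊤ := by
  obtain ⟨C₀, I, hI, hΔ⟩ := h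
  have e : (C * C₀⁻¹) • (C₀ • W₀) = C • W₀ := by rw [mul_smul, inv_smul_smul]
  obtain ⟨h1, -⟩ := Pool.Agent.Lib.MP_1a91b9_ntT.CT.unit_min (C₀ • W₀) I hI hΔ (C * C₀⁻¹)
    (by rw [e]; exact hm)
  rw [e] at h1
  obtain ⟨J, hJ⟩ := Pool.Agent.Lib.MP_1a91b9_ntT.CT.min_int _ hm
  exact Pool.Agent.Lib.MP_1a91b9_ntT.CT.ns_unit _ J hJ h1

end Pool.Agent.Lib.MP_1a91b9_ntX.PL
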