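import Pool.Agent.Lib.MP_1a91b9_ntX.PL.TmD
import Pool.Agent.Lib.MP_1a91b9_nt.VcPoint
import Pool.Agent.Lib.MP_1a91b9_ntT.CT.La

/-!
# Tamagawa numbers of `y² = x³ + d`: far points have nonsingular reduction (residue characteristic prime to `6`)

JOB TmF. `k = v.adicCompletion N`, `|2| = |3| = 1`, `C • crv d` minimal, `e : (C • crv d).Point ≃+ (crv d).Point` the isomorphism of
`MP_1a91b9_nt.exists_point_equiv (crv d) C`: `e (x, y) = (u² x + r, u³ y + u² s x + t)`.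

PROOF. (1) `C • crv d` is integral (`CT.min_int`), so `b₆`: hmm, use `c₆`: `c₆ (C • crv d) = u⁻¹ ^ 6 * c₆ (crv d) = u⁻¹ ^ 6 * (-864 d)` (`variableChange_c₆`; `864 = 2^5 * 3^3` is a unit), and
`b₂ (C • crv d) = u⁻¹ ^ 2 * 12 r` (`variableChange_b₂`, `12` is a unit). So `|d| ≤ |u|⁶` and `|r| ≤ |u|²`.
(2) Minimality gives `|u|⁶ * exp (-6) < |d|`: otherwise choose `π` with `|π| = exp (-1)` (`v.valuedAdicCompletion_surjective N`), `C' = ⟨u π, 0, 0, 0⟩`, `C' • crv d = crv (d / (u π)⁶)` is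
integral, and `CT.min_le` applied to `W₀ = C' • crv d` and the change `C * C'⁻¹` gives `|Δ (C' • crv d)| ≤ |Δ (C • crv d)|`, that is `|u π|^-12 ≤ |u|^-12`, a contradiction. Copy of
`tb_min` in `MP_1a91b9_ntT/PL/TamB.lean`.
(3) Let `e P = (X, Y)` with `|d| < |X|³` and `P = (x, y)`, `X = u² x + r`, `Y = u³ y + u² s x + t`. If `|x| > 1` then `P ∈ ns` by definition (`AddSubgroup.subset_closure`). Otherwise
`|X| ≤ |u|²`; `|Y|² = |X³ + d| = |X|³`. So `|u|⁶ exp (-6) < |d| < |X|³ ≤ |u|⁶`, and `|X|³ = |Y|²`: `parity` of `MP_1a91b9_ntT/PL/TamB.lean` (`μ = |u|`, `ρ = |X|`, `η = |Y|`, `θ = |d|`)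
shows that `|X|³ = |u|⁶`, so `|Y| = |u|³`, and `2 y + a₁ x + a₃ = 2 Y / u³` (`variableChange_a₁`, `variableChange_a₃`) is a unit. The case `P = 0`, `e P = 0` is clear.
Copy of `tb_index` (`hfar`) in `MP_1a91b9_ntT/PL/TamB.lean` (`parity` may be copied as a private theorem).
-/

set_option autoImplicit false

namespace Pool.Agent.Lib.MP_1a91b9_ntX.PL

open NumberField IsDedekindDomain WeierstrassCurve WithZero Pool.Agent.Lib.MP_1a91b9_ntX.LF
open Pool.Agent.Lib.MP_1a91b9_ntT.CT (ns)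
open scoped Classical

variable {N : Type*} [Field N] [NumberField N]

/-- parity: a square between two sixth powers which is a cube -/
private theorem TmF_parity {θ ρ μ η : ℤᵐ⁰} (h1 : μ ^ 6 * exp (-6 : ℤ) < θ) (h2 : θ < ρ ^ 3)
    (h3 : ρ ^ 3 < μ ^ 6) (h4 : η ^ 2 = ρ ^ 3) : False := by
  have hμ : μ ≠ 0 := by
    rintro rfl
    rw [zero_pow (by norm_num)] at h3
    exact not_lt_zero h3
  have hρ : ρ ≠ 0 := by
    rintro rfl
    rw [zero_pow (by norm_num)] at h2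
    exact not_lt_zero h2
  have hη : η ≠ 0 := by
    rintro rfl
    rw [zero_pow (by norm_num)] at h4
    exact pow_ne_zero 3 hρ h4.symm
  have e1 : μ = exp (log μ) := (exp_log hμ).symm
  have e2 : ρ = exp (log ρ) := (exp_log hρ).symm
  have e3 : η = exp (log η) := (exp_log hη).symm
  have h5 : μ ^ 6 * exp (-6 : ℤ) < ρ ^ 3 := h1.trans h2
  rw [e1, e2, ← exp_nsmul, ← exp_nsmul, ← exp_add, exp_lt_exp] at h5
  rw [e1, e2, ← exp_nsmul, ← exp_nsmul, exp_lt_exp] at h3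
  rw [e3, e2, ← exp_nsmul, ← exp_nsmul, exp_inj] at h4
  simp only [nsmul_eq_mul] at h3 h4 h5
  push_cast at h3 h4 h5
  omega

private theorem TmF_n12 {k : Type*} [Field k] (w : Valuation k ℤᵐ⁰) (h2 : w 2 = 1) (h3 : w 3 = 1) :
    w 12 = 1 := by
  have e : (12 : k) = 2 * 2 * 3 := by norm_num
  rw [e, map_mul, map_mul, h2, h3, one_mul, one_mul]

private theorem TmF_n864 {k : Type*} [Field k] (w : Valuation k ℤᵐ⁰) (h2 : w 2 = 1)
    (h3 : w 3 = 1) : w 864 = 1 := by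
  have e : (864 : k) = 2 ^ 5 * 3 ^ 3 := by norm_num
  rw [e, map_mul, map_pow, map_pow, h2, h3, one_pow, one_pow, one_mul]

section
variable (v : HeightOneSpectrum (𝓞 N)) (h2 : Valued.v (2 : v.adicCompletion N) = (1 : ℤᵐ⁰))
  (h3 : Valued.v (3 : v.adicCompletion N) = (1 : ℤᵐ⁰))
include h2 h3

private theorem TmF_int {d : v.adicCompletion N} (C : VariableChange (v.adicCompletion N))
    (I : WeierstrassCurve (v.adicCompletionIntegers N))
    (hI : C • crv d = I.baseChange (v.adicCompletion N)) :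
    Valued.v d ≤ (Valued.v (C.u : v.adicCompletion N) : ℤᵐ⁰) ^ 6 ∧
      Valued.v C.r ≤ (Valued.v (C.u : v.adicCompletion N) : ℤᵐ⁰) ^ 2 := by
  have hu0 : Valued.v (C.u : v.adicCompletion N) ≠ (0 : ℤᵐ⁰) :=
    (Valuation.ne_zero_iff _).2 C.u.ne_zero
  have hinv : Valued.v ((C.u⁻¹ : (v.adicCompletion N)ˣ) : v.adicCompletion N) =
      (Valued.v (C.u : v.adicCompletion N) : ℤᵐ⁰)⁻¹ := by
    rw [Units.val_inv_eq_inv_val, map_inv₀]
  have hc6 : Valued.v (C • crv d).c₆ ≤ (1 : ℤᵐ⁰) := by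
    rw [hI, WeierstrassCurve.baseChange, WeierstrassCurve.map_c₆]
    exact I.c₆.2
  have hb2 : Valued.v (C • crv d).b₂ ≤ (1 : ℤᵐ⁰) := by
    rw [hI, WeierstrassCurve.baseChange, WeierstrassCurve.map_b₂]
    exact I.b₂.2
  have e6 : (C • crv d).c₆ = ((C.u⁻¹ : (v.adicCompletion N)ˣ) : v.adicCompletion N) ^ 6 *
      (-(864 * d)) := by
    rw [variableChange_c₆]
    simp only [crv, WeierstrassCurve.c₆, WeierstrassCurve.b₂, WeierstrassCurve.b₄,
      WeierstrassCurve.b₆]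
    ring
  have e2 : (C • crv d).b₂ = ((C.u⁻¹ : (v.adicCompletion N)ˣ) : v.adicCompletion N) ^ 2 *
      (12 * C.r) := by
    rw [variableChange_b₂]
    simp only [crv, WeierstrassCurve.b₂]
    ring
  constructor
  · rw [e6, map_mul, map_pow, Valuation.map_neg, map_mul, TmF_n864 _ h2 h3, one_mul, hinv,
      inv_pow] at hc6
    rwa [inv_mul_le_iff₀ (zero_lt_iff.2 (pow_ne_zero 6 hu0)), mul_one] at hc6
  · rw [e2, map_mul, map_pow, map_mul, TmF_n12 _ h2 h3, one_mul, hinv, inv_pow] at hb2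
    rwa [inv_mul_le_iff₀ (zero_lt_iff.2 (pow_ne_zero 2 hu0)), mul_one] at hb2

omit h2 h3 in
private theorem TmF_model {d : v.adicCompletion N} (u₀ : (v.adicCompletion N)ˣ)
    (hu : (Valued.v d : ℤᵐ⁰) ≤ (Valued.v (u₀ : v.adicCompletion N) : ℤᵐ⁰) ^ 6) :
    ∃ I : WeierstrassCurve (v.adicCompletionIntegers N),
      (⟨u₀, 0, 0, 0⟩ : VariableChange (v.adicCompletion N)) • crv d =
        I.baseChange (v.adicCompletion N) := by
  obtain ⟨u, hu'⟩ : ∃ u : v.adicCompletion N, u = (u₀ : v.adicCompletion N) := ⟨_, rfl⟩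
  have hu00 : u ≠ 0 := by rw [hu']; exact u₀.ne_zero
  rw [← hu'] at hu
  have hu0 : Valued.v u ≠ (0 : ℤᵐ⁰) := (Valuation.ne_zero_iff _).2 hu00
  have hup : 0 < (Valued.v u : ℤᵐ⁰) := zero_lt_iff.2 hu0
  have b6 : Valued.v (d / u ^ 6) ≤ (1 : ℤᵐ⁰) := by
    rw [map_div₀, map_pow, div_le_one₀ (pow_pos hup 6)]
    exact hu
  refine ⟨⟨0, 0, 0, 0, ⟨_, b6⟩⟩, ?_⟩
  have hin : ((u₀⁻¹ : (v.adicCompletion N)ˣ) : v.adicCompletion N) = u⁻¹ := by
    rw [Units.val_inv_eq_inv_val, hu']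
  refine WeierstrassCurve.ext ?_ ?_ ?_ ?_ ?_
  · rw [variableChange_a₁, hin]
    simp [crv, WeierstrassCurve.baseChange]
  · rw [variableChange_a₂, hin]
    simp [crv, WeierstrassCurve.baseChange]
  · rw [variableChange_a₃, hin]
    simp [crv, WeierstrassCurve.baseChange]
  · rw [variableChange_a₄, hin]
    simp [crv, WeierstrassCurve.baseChange]
  · rw [variableChange_a₆, hin]
    simp only [crv, WeierstrassCurve.baseChange, WeierstrassCurve.map_a₆]
    change _ = d / u ^ 6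
    field_simp
    ring

private theorem TmF_min {d : v.adicCompletion N} (hd : d ≠ 0)
    (C : VariableChange (v.adicCompletion N))
    (hm : IsMinimal (v.adicCompletionIntegers N) (C • crv d)) :
    (Valued.v (C.u : v.adicCompletion N) : ℤᵐ⁰) ^ 6 * exp (-6 : ℤ) < Valued.v d := by
  by_contra hc
  rw [not_lt] at hc
  obtain ⟨π, hπ⟩ := v.valuedAdicCompletion_surjective N (exp (-1 : ℤ))
  have hπ0 : π ≠ 0 := by
    rintro rfl
    rw [map_zero] at hπ
    exact exp_ne_zero hπ.symm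
  obtain ⟨p, hp⟩ : ∃ p : (v.adicCompletion N)ˣ, (p : v.adicCompletion N) = π :=
    ⟨Units.mk0 π hπ0, rfl⟩
  have hv : Valued.v ((C.u * p : (v.adicCompletion N)ˣ) : v.adicCompletion N) =
      (Valued.v (C.u : v.adicCompletion N) : ℤᵐ⁰) * exp (-1 : ℤ) := by
    rw [Units.val_mul, map_mul, hp, hπ]
  obtain ⟨I, hI⟩ := TmF_model v (d := d) (C.u * p) (by
    rw [hv, mul_pow, ← exp_nsmul]
    simpa using hc)
  have h1 := Pool.Agent.Lib.MP_1a91b9_ntT.CT.min_le _ I hI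
      (C * (⟨C.u * p, 0, 0, 0⟩ : VariableChange (v.adicCompletion N))⁻¹) (by
    rw [mul_smul, inv_smul_smul]
    exact hm)
  rw [mul_smul, inv_smul_smul, variableChange_Δ, variableChange_Δ, map_mul, map_mul, map_pow,
    map_pow] at h1
  have n2 : (2 : v.adicCompletion N) ≠ 0 := by
    intro h
    rw [h, map_zero] at h2
    exact zero_ne_one h2
  have n3 : (3 : v.adicCompletion N) ≠ 0 := by
    intro h
    rw [h, map_zero] at h3
    exact zero_ne_one h3
  have hΔ : Valued.v (crv d).Δ ≠ (0 : ℤᵐ⁰) := by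
    rw [Valuation.ne_zero_iff, crv_Δ]
    have e : (432 : v.adicCompletion N) = 2 ^ 4 * 3 ^ 3 := by norm_num
    rw [e]
    exact neg_ne_zero.2 (mul_ne_zero (mul_ne_zero (pow_ne_zero _ n2) (pow_ne_zero _ n3))
      (pow_ne_zero _ hd))
  have h5 := le_of_mul_le_mul_right h1 (zero_lt_iff.2 hΔ)
  rw [Units.val_inv_eq_inv_val, Units.val_inv_eq_inv_val, map_inv₀, map_inv₀] at h5
  have hu0 : 0 < (Valued.v (C.u : v.adicCompletion N) : ℤᵐ⁰) :=
    zero_lt_iff.2 ((Valuation.ne_zero_iff _).2 C.u.ne_zero)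
  have h4 : ((Valued.v (((⟨C.u * p, 0, 0, 0⟩ : VariableChange (v.adicCompletion N)).u :
      (v.adicCompletion N)ˣ) : v.adicCompletion N) : ℤᵐ⁰))⁻¹ ≤
        (Valued.v (C.u : v.adicCompletion N))⁻¹ :=
    (pow_le_pow_iff_left₀ zero_le zero_le (by norm_num)).1 h5
  change ((Valued.v ((C.u * p : (v.adicCompletion N)ˣ) : v.adicCompletion N) : ℤᵐ⁰))⁻¹ ≤ _ at h4
  rw [hv, inv_le_inv₀ (mul_pos hu0 exp_pos) hu0] at h4
  have h6 : (Valued.v (C.u : v.adicCompletion N) : ℤᵐ⁰) * exp (-1 : ℤ) <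
      Valued.v (C.u : v.adicCompletion N) := by
    refine mul_lt_of_lt_one_right hu0 ?_
    rw [← exp_zero, exp_lt_exp]
    norm_num
  exact absurd h4 (not_le.2 h6)

end

theorem far_ns (v : HeightOneSpectrum (𝓞 N)) (h2 : Valued.v (2 : v.adicCompletion N) = (1 : ℤᵐ⁰))
    (h3 : Valued.v (3 : v.adicCompletion N) = (1 : ℤᵐ⁰)) {d : v.adicCompletion N} (hd : d ≠ 0)
    (C : VariableChange (v.adicCompletion N))
    (hm : IsMinimal (v.adicCompletionIntegers N) (C • crv d))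
    (e : (C • crv d).toAffine.Point ≃+ (crv d).toAffine.Point)
    (he : ∀ (x y : v.adicCompletion N) (h : (C • crv d).toAffine.Nonsingular x y), ∃ h',
      e (Affine.Point.some x y h) = Affine.Point.some
        ((C.u : v.adicCompletion N) ^ 2 * x + C.r)
        ((C.u : v.adicCompletion N) ^ 3 * y + (C.u : v.adicCompletion N) ^ 2 * C.s * x + C.t) h')
    (P : (C • crv d).toAffine.Point) (hP : Far (Valued.v : Valuation (v.adicCompletion N) ℤᵐ⁰) (e P)) :
    P ∈ ns (C • crv d) := by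
  obtain ⟨I, hI⟩ := Pool.Agent.Lib.MP_1a91b9_ntT.CT.min_int _ hm
  obtain ⟨-, i2⟩ := TmF_int v h2 h3 C I hI
  have i3 := TmF_min v h2 h3 hd C hm
  have hu0 : (C.u : v.adicCompletion N) ≠ 0 := C.u.ne_zero
  have hin : ((C.u⁻¹ : (v.adicCompletion N)ˣ) : v.adicCompletion N) =
      (C.u : v.adicCompletion N)⁻¹ := by
    rw [Units.val_inv_eq_inv_val]
  have hup : 0 < (Valued.v (C.u : v.adicCompletion N) : ℤᵐ⁰) :=
    zero_lt_iff.2 ((Valuation.ne_zero_iff _).2 hu0)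
  apply AddSubgroup.subset_closure
  rcases P with _ | ⟨x, y, hxy⟩
  · exact Or.inl rfl
  obtain ⟨h', hh'⟩ := he x y hxy
  rw [hh'] at hP
  rcases hP with h0 | ⟨X, Y, hXY, hP1, hP2⟩
  · exact absurd h0 (Affine.Point.some_ne_zero _)
  rw [Affine.Point.some.injEq] at hP1
  obtain ⟨hX, hY⟩ := hP1
  refine Or.inr ⟨x, y, hxy, rfl, ?_⟩
  by_cases hx : 1 < Valued.v x
  · exact Or.inl hx
  rw [not_lt] at hx
  right; left
  have heq := eq_crv hXY
  have hη : 2 * y + (C • crv d).a₁ * x + (C • crv d).a₃ =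
      2 * Y / (C.u : v.adicCompletion N) ^ 3 := by
    rw [variableChange_a₁, variableChange_a₃, hin, ← hY]
    simp only [crv]
    field_simp
    ring
  have hρ : Valued.v X ≤ (Valued.v (C.u : v.adicCompletion N) : ℤᵐ⁰) ^ 2 := by
    rw [← hX]
    refine (Valuation.map_add _ _ _).trans (max_le ?_ i2)
    rw [map_mul, map_pow]
    exact mul_le_of_le_one_right' hx
  have hYv : (Valued.v Y : ℤᵐ⁰) ^ 2 = Valued.v X ^ 3 := by
    rw [← map_pow, heq, Valuation.map_add_eq_of_lt_left, map_pow]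
    rw [map_pow]
    exact hP2
  have hρ3 : (Valued.v X : ℤᵐ⁰) ^ 3 ≤ Valued.v (C.u : v.adicCompletion N) ^ 6 := by
    have e : (Valued.v (C.u : v.adicCompletion N) : ℤᵐ⁰) ^ 6 =
      (Valued.v (C.u : v.adicCompletion N) ^ 2) ^ 3 := by rw [← pow_mul]
    rw [e]
    exact pow_le_pow_left₀ zero_le hρ 3
  rcases hρ3.lt_or_eq with hlt | heq3
  · exact absurd hYv fun h => TmF_parity i3 hP2 hlt h
  · rw [hη, map_div₀, map_mul, h2, one_mul, map_pow,
      div_eq_one_iff_eq (pow_ne_zero 3 hup.ne')]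
    rw [← hYv] at heq3
    have e : (Valued.v (C.u : v.adicCompletion N) : ℤᵐ⁰) ^ 6 =
      (Valued.v (C.u : v.adicCompletion N) ^ 3) ^ 2 := by rw [← pow_mul]
    rw [e] at heq3
    exact (pow_left_inj₀ zero_le zero_le two_ne_zero).1 heq3

end Pool.Agent.Lib.MP_1a91b9_ntX.PL
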