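import Pool.Agent.Lib.MP_1a91b9_ntX.PL.TmB
import Pool.Agent.Lib.MP_1a91b9_nt.VcPoint
import Pool.Agent.Lib.MP_1a91b9_ntT.CT.La
import Pool.Agent.Lib.MP_1a91b9_ntT.S9.QG

/-!
# Tamagawa numbers of `y² = x³ + d`: the subgroup of nonsingular reduction has finite index

JOB TmG. `k = v.adicCompletion N`, `Big Valued.v M P`: `P = 0` or `M < |x(P)|`.

PROOF. (`big_ns`) `M = max |C.r| (|C.u|²)`, `e : (C • crv d).Point ≃+ (crv d).Point`. Copy of the second half of `le4_finiteIndex` in `MP_1a91b9_ntT/CT/Le4.lean`: if `e P = (X, Y)`,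
`|X| > M`, `X = u² x + r`, then `|u² x| = |X| > |u|²`, so `|x| > 1` and `P ∈ ns` (`AddSubgroup.subset_closure`).
(`close`) Let `P = (x₁, y₁)`, `Q = (x₂, y₂)` be different points of `crv d`, `|xᵢ| ≤ M` (`M ≥ 1`), `|x₁ - x₂| ≤ ε`, `|y₁ - y₂| ≤ ε`. Then `P - Q` is big (`|x(P - Q)| > M`) if `ε ≠ 0` is small.
Put `c = min 1 |d|` and let `δ` be a small value (see below), `δ² < |d|`, `δ² ≤ ..`.
 Case A: `|2 y₁| > δ`. Then with `ε < δ`: `|y₁ + y₂| = |2 y₁ - (y₁ - y₂)| = |2 y₁| > δ`. If `x₁ = x₂`, then `(y₁ - y₂)(y₁ + y₂) = 0`, so `y₁ = y₂`, contradiction. So `x₁ ≠ x₂` and `P - Q = P + (x₂, -y₂)`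
 has `x = l² - x₁ - x₂`, `l = (y₁ + y₂)/(x₁ - x₂)`, `|l| ≥ δ / ε`, `|l|² > M` if `ε² M < δ²`; so `|x| = |l|² > M`.
 Case B: `|2 y₁| ≤ δ`. Then `|y₁|² ≤ δ² / |4| < |d|` (choose `δ` so), so `|x₁|³ = |y₁² - d| = |d|` and `|x₁| ≥ c` (`c = min 1 |d|`; `|x₁| < c ≤ 1` gives `|x₁|³ ≤ |x₁| < |d|`). If `ε < |3| c ≤ |3| |x₁|` then
 `|x₁² + x₁ x₂ + x₂²| = |3 x₁² - 3 x₁ (x₁ - x₂) + (x₁ - x₂)²| = |3| |x₁|² ≥ |3| c²` (the other terms are `≤ |3 x₁| ε < |3 x₁|·|3||x₁|.. ≤ |3||x₁|²` and `ε² < |9||x₁|² ≤ |3| |x₁|²`).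
 `(y₁ - y₂)(y₁ + y₂) = (x₁ - x₂)(x₁² + x₁ x₂ + x₂²)`. If `x₁ = x₂`: `y₁ = y₂` (no) or `y₂ = - y₁`; then `P - Q = 2 P`, `y₁ ≠ 0` (otherwise `P = Q`), `|2 y₁| = |y₁ - y₂| ≤ ε`, slope `3 x₁² / (2 y₁)` of value
 `≥ |3| c² / ε`, and `x(2 P) = l² - 2 x₁`. If `x₁ ≠ x₂`, then `y₁ ≠ y₂` by the identity, `l = (y₁ + y₂)/(x₁ - x₂) = (x₁² + x₁ x₂ + x₂²)/(y₁ - y₂)`, `|l| ≥ |3| c² / ε`. In both cases `|l|² > M` if
 `ε² M < (|3| c²)²`, and `|x(P - Q)| = |l|² > M`.
 (`P - Q = P + (-Q)`, `Affine.Point.neg_some`, `negY x y = -y`; `Affine.Point.add_some`, `slope_of_X_ne`, `slope_of_Y_ne`; model `close_k` of `MP_1a91b9_ntT/CT/Le3.lean`, here without the hypothesis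
 on `2`.) For the choice of `δ`, `ε` use `WithZero.exp`/`log` or products of `M⁻¹`, `|d|`, `|2|`, `|3|`, `exp (-1)` (all nonzero) as in `le3_eps`.
(`cover`) copy of `cover_k` in `MP_1a91b9_ntT/CT/Le3.lean` with `close` (uses `S9.finite_ball`, no `DecidableEq` problems: `open scoped Classical`).
(`ns_fin`) copy of `le4_finiteIndex` with `big_ns`, `cover`.
-/

set_option autoImplicit false

namespace Pool.Agent.Lib.MP_1a91b9_ntX.PL

open NumberField IsDedekindDomain WeierstrassCurve WithZero Pool.Agent.Lib.MP_1a91b9_ntX.LF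
open Pool.Agent.Lib.MP_1a91b9_ntT.CT (ns)
open scoped Classical

variable {N : Type*} [Field N] [NumberField N]

theorem big_ns (v : HeightOneSpectrum (𝓞 N)) {d : v.adicCompletion N}
    (C : VariableChange (v.adicCompletion N))
    (e : (C • crv d).toAffine.Point ≃+ (crv d).toAffine.Point)
    (he : ∀ (x y : v.adicCompletion N) (h : (C • crv d).toAffine.Nonsingular x y), ∃ h',
      e (Affine.Point.some x y h) = Affine.Point.some
        ((C.u : v.adicCompletion N) ^ 2 * x + C.r)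
        ((C.u : v.adicCompletion N) ^ 3 * y + (C.u : v.adicCompletion N) ^ 2 * C.s * x + C.t) h') :
    ∃ M : ℤᵐ⁰, ∀ P : (C • crv d).toAffine.Point,
      Big (Valued.v : Valuation (v.adicCompletion N) ℤᵐ⁰) M (e P) → P ∈ ns (C • crv d) := by
  obtain ⟨M, hM⟩ : ∃ M, M = max (Valued.v C.r)
    (Valued.v (C.u : v.adicCompletion N) ^ 2) := ⟨_, rfl⟩
  refine ⟨M, fun R ht2 => ?_⟩
  apply AddSubgroup.subset_closure
  rcases ht2 with h0 | ⟨X, Y, h, hXY, hX⟩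
  · left
    exact (map_eq_zero_iff e e.injective).mp h0
  · right
    rcases R with (_ | ⟨x, y, hxy⟩)
    · exfalso
      have h1 : e (0 : (C • crv d).toAffine.Point) = Affine.Point.some X Y h := hXY
      rw [_root_.map_zero] at h1
      exact Affine.Point.some_ne_zero _ h1.symm
    · refine ⟨x, y, hxy, rfl, Or.inl ?_⟩
      obtain ⟨h', hh'⟩ := he x y hxy
      rw [hh'] at hXY
      obtain ⟨hX1, _⟩ := (Affine.Point.some.injEq ..).mp hXY
      have h5 : Valued.v ((C.u : v.adicCompletion N) ^ 2 * x) = Valued.v X := by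
        rw [show (C.u : v.adicCompletion N) ^ 2 * x = X - C.r by rw [← hX1]; ring]
        refine Valuation.map_sub_eq_of_lt_left _ (lt_of_le_of_lt ?_ hX)
        rw [hM]
        exact le_max_left _ _
      have h6 : Valued.v (C.u : v.adicCompletion N) ^ 2 <
          Valued.v (C.u : v.adicCompletion N) ^ 2 * Valued.v x := by
        rw [← map_pow, ← map_mul, h5, map_pow]
        refine lt_of_le_of_lt ?_ hX
        rw [hM]
        exact le_max_right _ _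
      by_contra hc
      rw [not_lt] at hc
      exact (mul_le_of_le_one_right' hc).not_gt h6

private theorem TmG_eqn {F : Type*} [Field F] {d : F} (x y : F) :
    (crv d).toAffine.Equation x y ↔ y ^ 2 = x ^ 3 + d := by
  rw [Affine.equation_iff]
  simp [crv]

private theorem TmG_eps (β : ℤᵐ⁰) (hβ0 : β ≠ 0) (M : ℤᵐ⁰) (hM : 1 ≤ M) :
    ∃ e : ℤᵐ⁰, e ≠ 0 ∧ e ^ 2 * M < β ∧ e ^ 2 < β := by
  obtain ⟨ρ, hρ⟩ : ∃ ρ : ℤᵐ⁰, ρ = exp (min (log β) 0 - 1) := ⟨_, rfl⟩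
  have hρ0 : ρ ≠ 0 := hρ ▸ exp_ne_zero
  have hρβ : ρ < β := by
    rw [hρ, ← exp_log hβ0, exp_lt_exp, log_exp]
    omega
  have hρ1 : ρ < 1 := by
    rw [hρ, ← exp_zero, exp_lt_exp]
    omega
  have hM0 : M ≠ 0 := (zero_lt_one.trans_le hM).ne'
  have h1 : ρ * ρ < ρ := mul_lt_of_lt_one_right (zero_lt_iff.mpr hρ0) hρ1
  have hMi : M⁻¹ ≤ 1 := inv_le_one_of_one_le₀ hM
  have h2 : (ρ * M⁻¹) ^ 2 * M < ρ := by
    have h3 : (ρ * M⁻¹) ^ 2 * M = ρ * ρ * M⁻¹ := by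
      field_simp
    rw [h3]
    exact (mul_le_of_le_one_right' hMi).trans_lt h1
  refine ⟨ρ * M⁻¹, mul_ne_zero hρ0 (inv_ne_zero hM0), h2.trans hρβ, ?_⟩
  exact ((le_mul_of_one_le_right' hM).trans_lt h2).trans hρβ

private theorem TmG_ybound (v : HeightOneSpectrum (𝓞 N)) {M : ℤᵐ⁰} (hM : 1 ≤ M)
    {x y k : v.adicCompletion N} (hx : Valued.v x ≤ M) (h : y ^ 2 = x ^ 3 + k) :
    Valued.v y ≤ max (M ^ 3) (Valued.v k) := by
  rcases le_or_gt (Valued.v y) 1 with hy | hy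
  · exact (hy.trans (one_le_pow_of_one_le' hM 3)).trans (le_max_left _ _)
  · have h1 : Valued.v y ≤ Valued.v y ^ 2 := by
      rw [pow_two]
      exact le_mul_of_one_le_right' hy.le
    refine h1.trans ?_
    rw [← map_pow, h]
    refine (Valuation.map_add _ _ _).trans (max_le_max ?_ le_rfl)
    rw [map_pow]
    exact pow_le_pow_left' hx 3

private theorem TmG_fin {v : HeightOneSpectrum (𝓞 N)} {d : v.adicCompletion N} {M : ℤᵐ⁰}
    {x₁ y₁ x₂ y₂ : v.adicCompletion N} (h₁ : (crv d).toAffine.Nonsingular x₁ y₁)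
    (h₂ : (crv d).toAffine.Nonsingular x₂ y₂) (hx₁ : Valued.v x₁ ≤ M) (hx₂ : Valued.v x₂ ≤ M)
    (hxy : ¬(x₁ = x₂ ∧ y₁ = y₂)) (a b : v.adicCompletion N) (hb : b ≠ 0)
    (hs : (crv d).toAffine.slope x₁ x₂ y₁ (-y₂) = a / b)
    (hm : M * Valued.v b ^ 2 < Valued.v a ^ 2) :
    ∃ (x y : v.adicCompletion N) (h : (crv d).toAffine.Nonsingular x y),
      Affine.Point.some x₁ y₁ h₁ - Affine.Point.some x₂ y₂ h₂ = Affine.Point.some x y h ∧
        M < Valued.v x := by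
  have hneg : ∀ y : v.adicCompletion N, (crv d).toAffine.negY x₂ y = -y := by
    intro y
    simp [Affine.negY, crv]
  have hns : (crv d).toAffine.Nonsingular x₂ ((crv d).toAffine.negY x₂ y₂) :=
    (Affine.nonsingular_neg x₂ y₂).mpr h₂
  have hxy' : ¬(x₁ = x₂ ∧ y₁ = (crv d).toAffine.negY x₂ ((crv d).toAffine.negY x₂ y₂)) := by
    rw [hneg, hneg, neg_neg]
    exact hxy
  refine ⟨_, _, Affine.nonsingular_add h₁ hns hxy', ?_, ?_⟩
  · rw [sub_eq_add_neg, Affine.Point.neg_some]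
    exact Affine.Point.add_some hxy'
  · have hX : (crv d).toAffine.addX x₁ x₂ ((crv d).toAffine.slope x₁ x₂ y₁
        ((crv d).toAffine.negY x₂ y₂)) = (a / b) ^ 2 - (x₁ + x₂) := by
      rw [hneg, hs]
      simp only [Affine.addX, crv]
      ring
    have hbv : 0 < Valued.v b ^ 2 := pow_pos (zero_lt_iff.mpr ((Valuation.ne_zero_iff _).mpr hb)) 2
    have h5 : M < Valued.v ((a / b) ^ 2) := by
      rw [map_pow, map_div₀, div_pow, lt_div_iff₀ hbv]
      exact hm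
    have h6 : Valued.v (x₁ + x₂) ≤ M := (Valuation.map_add _ _ _).trans (max_le hx₁ hx₂)
    rw [hX, Valuation.map_sub_eq_of_lt_left _ (h6.trans_lt h5)]
    exact h5

private theorem TmG_nat (v : HeightOneSpectrum (𝓞 N)) (n : ℕ) (hn : n ≠ 0) :
    (n : v.adicCompletion N) ≠ 0 := by
  rw [← map_natCast (algebraMap N (v.adicCompletion N)) n]
  exact (map_ne_zero _).mpr (Nat.cast_ne_zero.mpr hn)

private theorem TmG_le_one (v : HeightOneSpectrum (𝓞 N)) (n : ℕ) :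
    Valued.v (n : v.adicCompletion N) ≤ 1 := by
  rw [← map_natCast (algebraMap N (v.adicCompletion N)) n,
    Pool.Agent.Lib.MP_1a91b9_nt.valued_algebraMap v, ← map_natCast (algebraMap (𝓞 N) N) n]
  exact v.valuation_le_one _

private theorem TmG_close (v : HeightOneSpectrum (𝓞 N)) {d : v.adicCompletion N} (hd : d ≠ 0)
    (M : ℤᵐ⁰) (hM : 1 ≤ M) : ∃ ε : ℤᵐ⁰, ε ≠ 0 ∧ ∀ (x₁ y₁ x₂ y₂ : v.adicCompletion N)
      (h₁ : (crv d).toAffine.Nonsingular x₁ y₁) (h₂ : (crv d).toAffine.Nonsingular x₂ y₂),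
      Valued.v x₁ ≤ M → Valued.v x₂ ≤ M → Valued.v (x₁ - x₂) ≤ ε → Valued.v (y₁ - y₂) ≤ ε →
      Affine.Point.some x₁ y₁ h₁ ≠ Affine.Point.some x₂ y₂ h₂ →
      ∃ (x y : v.adicCompletion N) (h : (crv d).toAffine.Nonsingular x y),
        Affine.Point.some x₁ y₁ h₁ - Affine.Point.some x₂ y₂ h₂ = Affine.Point.some x y h ∧
          M < Valued.v x := by
  have h20 : (2 : v.adicCompletion N) ≠ 0 := by exact_mod_cast TmG_nat v 2 two_ne_zero
  have h30 : (3 : v.adicCompletion N) ≠ 0 := by exact_mod_cast TmG_nat v 3 three_ne_zero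
  have hv2 : Valued.v (2 : v.adicCompletion N) ≠ 0 := (Valuation.ne_zero_iff _).mpr h20
  have hv3 : Valued.v (3 : v.adicCompletion N) ≠ 0 := (Valuation.ne_zero_iff _).mpr h30
  have hvd : Valued.v d ≠ 0 := (Valuation.ne_zero_iff _).mpr hd
  have h31 : Valued.v (3 : v.adicCompletion N) ≤ 1 := by exact_mod_cast TmG_le_one v 3
  obtain ⟨δ, hδ⟩ : ∃ δ : ℤᵐ⁰,
      δ = exp (min (log (Valued.v (2 : v.adicCompletion N) ^ 2 * Valued.v d)) 0 - 1) := ⟨_, rfl⟩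
  have h2d : Valued.v (2 : v.adicCompletion N) ^ 2 * Valued.v d ≠ 0 :=
    mul_ne_zero (pow_ne_zero 2 hv2) hvd
  have hδ0 : δ ≠ 0 := hδ ▸ exp_ne_zero
  have hδd : δ < Valued.v (2 : v.adicCompletion N) ^ 2 * Valued.v d := by
    rw [hδ, ← exp_log h2d, exp_lt_exp, log_exp]
    omega
  have hδ1 : δ < 1 := by
    rw [hδ, ← exp_zero, exp_lt_exp]
    omega
  obtain ⟨c, hc⟩ : ∃ c : ℤᵐ⁰, c = min 1 (Valued.v d) := ⟨_, rfl⟩
  have hc0 : 0 < c := by
    rw [hc]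
    exact lt_min zero_lt_one (zero_lt_iff.mpr hvd)
  have hc1 : c ≤ 1 := hc ▸ min_le_left _ _
  obtain ⟨η, hη⟩ : ∃ η : ℤᵐ⁰, η = min δ (Valued.v (3 : v.adicCompletion N) * c ^ 2) := ⟨_, rfl⟩
  have hη0 : 0 < η := by
    rw [hη]
    exact lt_min (zero_lt_iff.mpr hδ0) (mul_pos (zero_lt_iff.mpr hv3) (pow_pos hc0 2))
  have hηδ : η ≤ δ := hη ▸ min_le_left _ _
  have hηc : η ≤ Valued.v (3 : v.adicCompletion N) * c ^ 2 := hη ▸ min_le_right _ _
  obtain ⟨ε, hε0, hε1, hε2⟩ := TmG_eps (η ^ 2) (pow_ne_zero 2 hη0.ne') M hM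
  have hεη : ε < η := lt_of_pow_lt_pow_left' 2 hε2
  refine ⟨ε, hε0, fun x₁ y₁ x₂ y₂ h₁ h₂ hx₁ hx₂ hx hy hne => ?_⟩
  have e1 := (TmG_eqn x₁ y₁).mp h₁.1
  have e2 := (TmG_eqn x₂ y₂).mp h₂.1
  have hxy : ¬(x₁ = x₂ ∧ y₁ = y₂) := by
    rintro ⟨rfl, rfl⟩
    exact hne rfl
  have hsmall : ∀ a b : v.adicCompletion N, Valued.v b ≤ ε → η ≤ Valued.v a →
      M * Valued.v b ^ 2 < Valued.v a ^ 2 := by
    intro a b hb ha
    refine lt_of_le_of_lt (mul_le_mul' le_rfl (pow_le_pow_left' hb 2)) ?_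
    rw [mul_comm]
    exact hε1.trans_le (pow_le_pow_left' ha 2)
  have hid : (y₁ - y₂) * (y₁ + y₂) = (x₁ - x₂) * (x₁ ^ 2 + x₁ * x₂ + x₂ ^ 2) := by
    linear_combination e1 - e2
  have hslope : x₁ ≠ x₂ → (crv d).toAffine.slope x₁ x₂ y₁ (-y₂) = (y₁ + y₂) / (x₁ - x₂) := by
    intro hx12
    rw [Affine.slope_of_X_ne hx12, sub_neg_eq_add]
  rcases lt_or_ge δ (Valued.v (2 * y₁)) with hA | hB
  · have hγ : Valued.v (y₁ + y₂) = Valued.v (2 * y₁) := by
      rw [show y₁ + y₂ = 2 * y₁ - (y₁ - y₂) by ring]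
      exact Valuation.map_sub_eq_of_lt_left _
        (((hy.trans_lt hεη).trans_le hηδ).trans hA)
    have hs0 : y₁ + y₂ ≠ 0 := by
      rw [← Valuation.ne_zero_iff (Valued.v : Valuation (v.adicCompletion N) ℤᵐ⁰), hγ]
      exact (zero_le.trans_lt hA).ne'
    have hx12 : x₁ ≠ x₂ := by
      intro h0
      rw [h0, sub_self, zero_mul] at hid
      exact hxy ⟨h0, sub_eq_zero.mp ((mul_eq_zero.mp hid).resolve_right hs0)⟩
    exact TmG_fin h₁ h₂ hx₁ hx₂ hxy _ _ (sub_ne_zero.mpr hx12) (hslope hx12)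
      (hsmall _ _ hx (by rw [hγ]; exact hηδ.trans hA.le))
  · have hyd : Valued.v (y₁ ^ 2) < Valued.v d := by
      have h5 : Valued.v (2 * y₁) ^ 2 ≤ δ ^ 2 := pow_le_pow_left' hB 2
      have h6 : δ ^ 2 ≤ δ := by
        rw [pow_two]
        exact mul_le_of_le_one_right' hδ1.le
      have h7 := (h5.trans h6).trans_lt hδd
      rw [map_mul, mul_pow] at h7
      rw [map_pow]
      exact lt_of_mul_lt_mul_left' h7
    have hx3 : Valued.v x₁ ^ 3 = Valued.v d := by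
      rw [← map_pow, show x₁ ^ 3 = y₁ ^ 2 - d by rw [e1]; ring]
      exact Valuation.map_sub_eq_of_lt_right _ hyd
    have hcx : c ≤ Valued.v x₁ := by
      by_contra hlt
      rw [not_le] at hlt
      have h5 : Valued.v x₁ ^ 3 ≤ Valued.v x₁ := by
        rw [pow_succ]
        exact mul_le_of_le_one_left' (pow_le_one' (hlt.le.trans hc1) 2)
      have h6 : Valued.v x₁ < Valued.v d := hlt.trans_le (hc ▸ min_le_right _ _)
      rw [hx3] at h5
      exact h5.not_gt h6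
    have hε3 : ε < Valued.v (3 : v.adicCompletion N) * Valued.v x₁ := by
      refine hεη.trans_le (hηc.trans (mul_le_mul' le_rfl ?_))
      rw [pow_two]
      exact (mul_le_of_le_one_right' hc1).trans hcx
    have hvx0 : 0 < Valued.v x₁ := hc0.trans_le hcx
    have h3x : η ≤ Valued.v (3 * x₁ ^ 2) := by
      rw [map_mul, map_pow]
      exact hηc.trans (mul_le_mul' le_rfl (pow_le_pow_left' hcx 2))
    by_cases hx12 : x₁ = x₂
    · subst hx12
      have hy12 : y₁ ≠ y₂ := fun h => hxy ⟨rfl, h⟩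
      rw [sub_self, zero_mul] at hid
      have hs0 : y₁ + y₂ = 0 := (mul_eq_zero.mp hid).resolve_left (sub_ne_zero.mpr hy12)
      have hy2 : y₂ = -y₁ := by linear_combination hs0
      subst hy2
      have hy0 : (2 : v.adicCompletion N) * y₁ ≠ 0 := by
        intro h0
        apply hy12
        linear_combination h0
      have hy' : Valued.v (2 * y₁) ≤ ε := by
        rw [show (2 : v.adicCompletion N) * y₁ = y₁ - -y₁ by ring]
        exact hy
      refine TmG_fin h₁ h₂ hx₁ hx₂ hxy (3 * x₁ ^ 2) (2 * y₁) hy0 ?_ (hsmall _ _ hy' h3x)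
      have hn : y₁ ≠ (crv d).toAffine.negY x₁ y₁ := by
        simp only [Affine.negY, crv]
        intro h0
        apply hy0
        linear_combination h0
      rw [neg_neg, Affine.slope_of_Y_ne rfl hn]
      simp only [Affine.negY, crv]
      congr 1 <;> ring
    · have hq : Valued.v (x₁ ^ 2 + x₁ * x₂ + x₂ ^ 2) = Valued.v (3 * x₁ ^ 2) := by
        rw [show x₁ ^ 2 + x₁ * x₂ + x₂ ^ 2 =
          3 * x₁ ^ 2 - (3 * x₁ * (x₁ - x₂) - (x₁ - x₂) ^ 2) by ring]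
        refine Valuation.map_sub_eq_of_lt_left _ ?_
        have hdx : Valued.v (x₁ - x₂) < Valued.v (3 : v.adicCompletion N) * Valued.v x₁ :=
          hx.trans_lt hε3
        have h5 : Valued.v (3 * x₁ * (x₁ - x₂)) < Valued.v (3 * x₁ ^ 2) := by
          rw [map_mul, map_mul, map_mul, map_pow, pow_two, ← mul_assoc]
          refine mul_lt_mul_of_pos_left (hdx.trans_le (mul_le_of_le_one_left' h31)) ?_
          exact mul_pos (zero_lt_iff.mpr hv3) hvx0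
        have h6 : Valued.v ((x₁ - x₂) ^ 2) < Valued.v (3 * x₁ ^ 2) := by
          rw [map_pow, map_mul, map_pow]
          refine (pow_lt_pow_left₀ hdx zero_le two_ne_zero).trans_le ?_
          rw [mul_pow]
          refine mul_le_mul' ?_ le_rfl
          rw [pow_two]
          exact mul_le_of_le_one_left' h31
        exact (Valuation.map_sub _ _ _).trans_lt (max_lt h5 h6)
      have hq0 : x₁ ^ 2 + x₁ * x₂ + x₂ ^ 2 ≠ 0 := by
        rw [← Valuation.ne_zero_iff (Valued.v : Valuation (v.adicCompletion N) ℤᵐ⁰), hq]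
        exact (hη0.trans_le h3x).ne'
      have hy12 : y₁ - y₂ ≠ 0 := by
        intro h0
        rw [h0, zero_mul] at hid
        exact mul_ne_zero (sub_ne_zero.mpr hx12) hq0 hid.symm
      refine TmG_fin h₁ h₂ hx₁ hx₂ hxy (x₁ ^ 2 + x₁ * x₂ + x₂ ^ 2) (y₁ - y₂) hy12 ?_
        (hsmall _ _ hy (by rw [hq]; exact h3x))
      rw [hslope hx12, div_eq_div_iff (sub_ne_zero.mpr hx12) hy12]
      linear_combination hid

theorem cover (v : HeightOneSpectrum (𝓞 N)) {d : v.adicCompletion N} (hd : d ≠ 0) (M : ℤᵐ⁰) :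
    ∃ T : Finset (crv d).toAffine.Point, ∀ P : (crv d).toAffine.Point, ∃ t ∈ T,
      Big (Valued.v : Valuation (v.adicCompletion N) ℤᵐ⁰) M (P - t) := by
  obtain ⟨M', hM'⟩ : ∃ M', M' = max 1 M := ⟨_, rfl⟩
  have hM1 : 1 ≤ M' := hM' ▸ le_max_left 1 M
  have hMM : M ≤ M' := hM' ▸ le_max_right 1 M
  obtain ⟨e, he0, he⟩ := TmG_close v hd M' hM1
  obtain ⟨S, hS⟩ := Pool.Agent.Lib.MP_1a91b9_ntT.S9.finite_ball v M' e he0
  obtain ⟨S', hS'⟩ := Pool.Agent.Lib.MP_1a91b9_ntT.S9.finite_ball v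
    (max (M' ^ 3) (Valued.v d)) e he0
  obtain ⟨t, ht'⟩ : ∃ t : (v.adicCompletion N) × (v.adicCompletion N) →
      (crv d).toAffine.Point,
      ∀ q, (∃ Q : (crv d).toAffine.Point, ∃ (x y : v.adicCompletion N)
        (h : (crv d).toAffine.Nonsingular x y),
        Q = Affine.Point.some x y h ∧ Valued.v x ≤ M' ∧ Valued.v (x - q.1) ≤ e ∧
          Valued.v (y - q.2) ≤ e) →
        ∃ (x y : v.adicCompletion N) (h : (crv d).toAffine.Nonsingular x y),
        t q = Affine.Point.some x y h ∧ Valued.v x ≤ M' ∧ Valued.v (x - q.1) ≤ e ∧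
          Valued.v (y - q.2) ≤ e := by
    refine ⟨fun q => if H : (∃ Q : (crv d).toAffine.Point, ∃ (x y : v.adicCompletion N)
        (h : (crv d).toAffine.Nonsingular x y),
        Q = Affine.Point.some x y h ∧ Valued.v x ≤ M' ∧ Valued.v (x - q.1) ≤ e ∧
          Valued.v (y - q.2) ≤ e) then H.choose else 0, fun q H => ?_⟩
    beta_reduce
    rw [dif_pos H]
    exact H.choose_spec
  refine ⟨insert 0 ((S ×ˢ S').image t), fun P => ?_⟩
  rcases P with (_ | ⟨x₁, y₁, h₁⟩)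
  · exact ⟨0, Finset.mem_insert_self _ _, Or.inl (sub_self _)⟩
  rcases lt_or_ge M' (Valued.v x₁) with hx₁ | hx₁
  · refine ⟨0, Finset.mem_insert_self _ _, Or.inr ⟨x₁, y₁, h₁, sub_zero _, hMM.trans_lt hx₁⟩⟩
  · have e1 := (TmG_eqn x₁ y₁).mp h₁.1
    have hy₁ := TmG_ybound v hM1 hx₁ e1
    obtain ⟨s, hs, hs1⟩ := hS x₁ hx₁
    obtain ⟨s', hs', hs1'⟩ := hS' y₁ hy₁
    obtain ⟨x₂, y₂, h₂, hQ, hx₂, hxs, hys⟩ := ht' (s, s') ⟨_, x₁, y₁, h₁, rfl, hx₁, hs1, hs1'⟩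
    refine ⟨t (s, s'), Finset.mem_insert_of_mem (Finset.mem_image_of_mem _
      (Finset.mem_product.mpr ⟨hs, hs'⟩)), ?_⟩
    rw [hQ]
    have hdx : Valued.v (x₁ - x₂) ≤ e := by
      rw [show x₁ - x₂ = (x₁ - s) - (x₂ - s) by ring]
      exact (Valuation.map_sub _ _ _).trans (max_le hs1 hxs)
    have hdy : Valued.v (y₁ - y₂) ≤ e := by
      rw [show y₁ - y₂ = (y₁ - s') - (y₂ - s') by ring]
      exact (Valuation.map_sub _ _ _).trans (max_le hs1' hys)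
    by_cases hPQ : Affine.Point.some x₁ y₁ h₁ = Affine.Point.some x₂ y₂ h₂
    · left
      rw [hPQ, sub_self]
    · right
      obtain ⟨x, y, h, h5, h6⟩ := he x₁ y₁ x₂ y₂ h₁ h₂ hx₁ hx₂ hdx hdy hPQ
      exact ⟨x, y, h, h5, hMM.trans_lt h6⟩

theorem ns_fin (v : HeightOneSpectrum (𝓞 N)) {d : v.adicCompletion N} (hd : d ≠ 0)
    (C : VariableChange (v.adicCompletion N)) : (ns (C • crv d)).FiniteIndex := by
  obtain ⟨e, he⟩ := Pool.Agent.Lib.MP_1a91b9_nt.exists_point_equiv (crv d) C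
  obtain ⟨M, hM⟩ := big_ns v C e he
  obtain ⟨T, hT⟩ := cover v hd M
  have hkey : ∀ P : (C • crv d).toAffine.Point, ∃ t ∈ T,
      P - e.symm t ∈ ns (C • crv d) := by
    intro P
    obtain ⟨t, ht1, ht2⟩ := hT (e P)
    refine ⟨t, ht1, hM _ ?_⟩
    have heR : e (P - e.symm t) = e P - t := by
      rw [_root_.map_sub]
      congr 1
      exact e.apply_symm_apply t
    rw [heR]
    exact ht2
  have hfin : Finite ((C • crv d).toAffine.Point ⧸ ns (C • crv d)) := by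
    refine Finite.of_surjective (fun t : T => (QuotientAddGroup.mk (e.symm t) :
      (C • crv d).toAffine.Point ⧸ ns (C • crv d))) ?_
    intro q
    obtain ⟨P, rfl⟩ := QuotientAddGroup.mk_surjective q
    obtain ⟨t, ht1, ht2⟩ := hkey P
    refine ⟨⟨t, ht1⟩, ?_⟩
    rw [QuotientAddGroup.eq]
    rw [neg_add_eq_sub]
    exact ht2
  exact AddSubgroup.finiteIndex_of_finite_quotient

end Pool.Agent.Lib.MP_1a91b9_ntX.PL
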