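import Pool.Agent.Lib.MP_1a91b9_ntX.PL.TmC
import Pool.Agent.Lib.MP_1a91b9_ntX.PL.TmE
import Pool.Agent.Lib.MP_1a91b9_ntX.PL.TmF
import Pool.Agent.Lib.MP_1a91b9_ntX.PL.TmG
import Pool.Agent.Lib.MP_1a91b9_ntX.PL.NmA

/-!
# Tamagawa numbers of `y² = x³ + d`: they are prime to `ℓ ≥ 5`

JOB TmH.

PROOF. (`index_cop`) the quotient `G ⧸ H` is finite; if `ℓ` divides its cardinality there is an element of (additive) order `ℓ` (`exists_prime_addOrderOf_dvd_card'` or `exists_prime_addOrderOf_dvd_card`),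
the class of `g`; `(2 ^ a * 3 ^ b) • g ∈ H` so `ℓ ∣ 2 ^ a * 3 ^ b`, impossible for a prime `ℓ ≥ 5`.
(`tam_cop5`) `tam W v = (ns (minModel W v)).index` (`CT.nonsing_eq`, `S9.tam`), `minModel W v = C • crv (algebraMap d)` (`minModel_crv`), `hm : IsMinimal _ (minModel W v)` is `minModel_isMinimal`
(`S9/QB`, used in `TamB.lean`/`Nrm.lean`). Let `d' = algebraMap N (v.adicCompletion N) d ≠ 0`. `2 ≠ 0`, `3 ≠ 0` in the completion (images of `2`, `3`). `|2| ≤ 1`, `|3| ≤ 1` (`val_le_one`), not both `< 1`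
(`1 = 3 - 2`). If `GoodAt v (crv d')` then `ns = ⊤`, the index is `1`. Otherwise for all points `P` of `crv d'`:
 * `|2| < 1`: `tri2` and `good2`: for all `M` there are `n`, `m ∈ {1, 3}` with `(2^n m) P` big; with `M` from `big_ns`: `(2^n m) • e.symm.. ∈ ns`;
 * `|3| < 1`: `tri3`, `good3`; * `|2| = |3| = 1`: `tri6`, `good6`, `far_ns`.
So every element of the group of points of `C • crv d'` has a multiple `2^a 3^b` in `ns` and `index_cop` applies with `ns_fin`.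
-/

set_option autoImplicit false

namespace Pool.Agent.Lib.MP_1a91b9_ntX.PL

open NumberField IsDedekindDomain WeierstrassCurve WithZero Pool.Agent.Lib.MP_1a91b9_ntX.LF
open Pool.Agent.Lib.MP_1a91b9_ntT.CT (ns)
open Pool.Agent.Lib.MP_1a91b9_ntT.S9 (tam minModel minChange normFactor)
open scoped Classical

theorem index_cop {G : Type*} [AddCommGroup G] (H : AddSubgroup G) [H.FiniteIndex] {ℓ : ℕ}
    (hℓ : ℓ.Prime) (h5 : 5 ≤ ℓ) (h : ∀ g : G, ∃ a b : ℕ, (2 ^ a * 3 ^ b) • g ∈ H) :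
    H.index.Coprime ℓ := by
  rw [Nat.coprime_comm, Nat.Prime.coprime_iff_not_dvd hℓ]
  intro hdvd
  have : Fact ℓ.Prime := ⟨hℓ⟩
  have : Finite (G ⧸ H) := AddSubgroup.finite_quotient_of_finiteIndex
  rw [AddSubgroup.index] at hdvd
  obtain ⟨q, hq⟩ := exists_prime_addOrderOf_dvd_card' ℓ hdvd
  obtain ⟨g, rfl⟩ := QuotientAddGroup.mk_surjective q
  obtain ⟨a, b, hab⟩ := h g
  have h1 : (2 ^ a * 3 ^ b) • (QuotientAddGroup.mk g : G ⧸ H) = 0 := by
    rw [← QuotientAddGroup.mk_nsmul]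
    exact (QuotientAddGroup.eq_zero_iff _).2 hab
  have h2 : ℓ ∣ 2 ^ a * 3 ^ b := by
    rw [← hq]
    exact addOrderOf_dvd_of_nsmul_eq_zero h1
  rcases (hℓ.dvd_mul).1 h2 with h3 | h3
  · have := Nat.le_of_dvd (by norm_num) (hℓ.dvd_of_dvd_pow h3)
    omega
  · have := Nat.le_of_dvd (by norm_num) (hℓ.dvd_of_dvd_pow h3)
    omega

theorem tam_cop5 {N : Type*} [Field N] [NumberField N] {W : WeierstrassCurve N}
    {D : VariableChange N} {d : N} (hd : d ≠ 0) (hD : D • W = crv d) {ℓ : ℕ} (hℓ : ℓ.Prime)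
    (h5 : 5 ≤ ℓ) (v : HeightOneSpectrum (𝓞 N)) : (tam W v).Coprime ℓ := by
  obtain ⟨C, -, hC⟩ := minModel_crv hD v
  have hm := Pool.Agent.Lib.MP_1a91b9_ntT.S9.minModel_isMinimal W v
  rw [tam, Pool.Agent.Lib.MP_1a91b9_ntT.CT.nonsing_eq]
  rw [hC] at hm ⊢
  have hd' : algebraMap N (v.adicCompletion N) d ≠ 0 := (map_ne_zero _).2 hd
  generalize algebraMap N (v.adicCompletion N) d = δ at hC hm hd' ⊢
  by_cases hg : GoodAt v (crv δ)
  · rw [good_ns v hg C hm, AddSubgroup.index_top]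
    exact Nat.coprime_one_left ℓ
  have h20 : (2 : v.adicCompletion N) ≠ 0 := by
    have h : algebraMap N (v.adicCompletion N) 2 ≠ 0 := (map_ne_zero _).2 two_ne_zero
    rwa [map_ofNat] at h
  have h30 : (3 : v.adicCompletion N) ≠ 0 := by
    have h : algebraMap N (v.adicCompletion N) 3 ≠ 0 := (map_ne_zero _).2 three_ne_zero
    rwa [map_ofNat] at h
  have hle2 : (Valued.v (2 : v.adicCompletion N) : ℤᵐ⁰) ≤ 1 :=
    (2 : v.adicCompletionIntegers N).2
  have hle3 : (Valued.v (3 : v.adicCompletion N) : ℤᵐ⁰) ≤ 1 :=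
    (3 : v.adicCompletionIntegers N).2
  obtain ⟨e, he⟩ := Pool.Agent.Lib.MP_1a91b9_nt.exists_point_equiv (crv δ) C
  obtain ⟨M, hM⟩ := big_ns v C e he
  have := ns_fin v hd' C
  refine index_cop (ns (C • crv δ)) hℓ h5 fun P => ?_
  rcases hle2.lt_or_eq with hv2 | hv2
  · rcases tri2 h20 h30 hd' (Valued.v : Valuation (v.adicCompletion N) ℤᵐ⁰) hv2 (e P) with
      h | ⟨x, y, hxy, hx⟩
    · obtain ⟨n, m, hm', hB⟩ := h M
      rw [← map_nsmul] at hB
      have h1 := hM _ hB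
      rcases hm' with rfl | rfl
      · exact ⟨n, 0, by simpa using h1⟩
      · exact ⟨n, 1, by simpa using h1⟩
    · exact absurd (good2 v hd' hxy hv2 hx) hg
  rcases hle3.lt_or_eq with hv3 | hv3
  · rcases tri3 h20 h30 hd' (Valued.v : Valuation (v.adicCompletion N) ℤᵐ⁰) hv3 (e P) with
      h | ⟨x, y, hxy, hx⟩
    · obtain ⟨n, m, hm', hB⟩ := h M
      rw [← map_nsmul] at hB
      have h1 := hM _ hB
      rcases hm' with rfl | rfl
      · exact ⟨0, n, by simpa using h1⟩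
      · exact ⟨1, n, by simpa [mul_comm] using h1⟩
    · exact absurd (good3 v hd' hxy hv3 hx) hg
  · rcases tri6 h20 h30 hd' (Valued.v : Valuation (v.adicCompletion N) ℤᵐ⁰) hv2 hv3 (e P) with
      ⟨m, hm', hF⟩ | ⟨x, y, hxy, hx, hy⟩
    · rw [← map_nsmul] at hF
      have h1 := far_ns v hv2 hv3 hd' C hm e he _ hF
      rcases hm' with rfl | rfl | rfl
      · exact ⟨0, 0, by simpa using h1⟩
      · exact ⟨1, 0, by simpa using h1⟩
      · exact ⟨0, 1, by simpa using h1⟩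
    · exact absurd (good6 v hd' hxy hv2 hv3 hx hy) hg

end Pool.Agent.Lib.MP_1a91b9_ntX.PL
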